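import Pool.Agent.MP_47ed89_co.h58.Proj
import Pool.Agent.MP_47ed89_co.h58.Affine

/-!
Complements of designs, and the blocks fixed by an involution when the index is odd.
-/

set_option autoImplicit false

namespace Pool.Agent.MP_47ed89_co.H99

open Finset Pool.Agent.MP_47ed89_co.H58

variable {X : Type} [Fintype X] [DecidableEq X] {B : Finset (Finset X)} {k t l : ℕ}

omit [Fintype X] in
lemma avoid (H : ∀ i ≤ t, ∃ l, Des B i l) (j : ℕ) : ∀ i, i + j ≤ t → ∃ c, ∀ S T : Finset X,
    S.card = i → T.card = j → Disjoint S T → (B.filter fun b => S ⊆ b ∧ Disjoint T b).card = c := by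
  induction j with
  | zero =>
    intro i hi
    obtain ⟨l, hl⟩ := H i hi
    refine ⟨l, fun S T h1 h2 _ => ?_⟩
    rw [card_eq_zero.1 h2, ← hl S h1]
    simp
  | succ j ih =>
    intro i hi
    obtain ⟨c, hc⟩ := ih i (by omega)
    obtain ⟨c', hc'⟩ := ih (i + 1) (by omega)
    refine ⟨c - c', fun S T h1 h2 h3 => ?_⟩
    obtain ⟨x, T, hx, rfl, h4⟩ := card_eq_succ.1 h2
    obtain ⟨h5, h6⟩ := disjoint_insert_right.1 h3
    rw [← hc S T h1 h4 h6, ← hc' (insert x S) T (by rw [card_insert_of_notMem h5, h1]) h4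
      (disjoint_insert_left.2 ⟨hx, h6⟩),
      ← card_filter_add_card_filter_not (s := B.filter fun b => S ⊆ b ∧ Disjoint T b) (x ∈ ·),
      filter_filter, filter_filter]
    refine Nat.eq_sub_of_add_eq' ?_
    congr 2 <;> ext b <;> simp only [mem_filter, insert_subset_iff, disjoint_insert_left] <;> tauto

lemma complete (H : ∀ i ≤ t, ∃ l, Des B i l) (hk : ∀ b ∈ B, b.card = k)
    (hv : Fintype.card X ≤ k + t) (hne : B.Nonempty) (T : Finset X) (hT : T.card = k) : T ∈ B := by
  obtain ⟨c, hc⟩ := avoid H (Fintype.card X - k) 0 (by omega)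
  obtain ⟨b, hb⟩ := hne
  have h1 := hc ∅ bᶜ rfl (by rw [card_compl, hk b hb]) (by simp)
  rw [← hc ∅ Tᶜ rfl (by rw [card_compl, hT]) (by simp)] at h1
  obtain ⟨b', h2⟩ := card_pos.1 ((card_pos.2 ⟨b, mem_filter.2 ⟨hb, empty_subset _,
    disjoint_compl_left⟩⟩).trans_eq h1)
  obtain ⟨h3, -, h4⟩ := mem_filter.1 h2
  rwa [← eq_of_subset_of_card_le (disjoint_compl_left_iff.1 h4) (by rw [hT, hk b' h3])]

/-- The complements of the blocks of a nontrivial 6-design form a 6-design. -/
lemma compl_des (hk : ∀ b ∈ B, b.card = k) (h6 : 6 < k) (hkv : k < Fintype.card X) (hl : 0 < l)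
    (hd : Des B 6 l) (hnt : ∃ T : Finset X, T.card = k ∧ T ∉ B) :
    k + 6 < Fintype.card X ∧ ∃ l', 0 < l' ∧ Des (B.image compl) 6 l' := by
  obtain ⟨l1, l2, l3, l4, l5, h⟩ := hd.idx hk h6 hkv.le
  have H : ∀ i ≤ 6, ∃ l, Des B i l := by
    intro i hi
    interval_cases i
    exacts [⟨_, h.d0⟩, ⟨_, h.d1⟩, ⟨_, h.d2⟩, ⟨_, h.d3⟩, ⟨_, h.d4⟩, ⟨_, h.d5⟩, ⟨_, h.d6⟩]
  have hne := h.nonempty hl (by omega)
  obtain ⟨T0, h1, h2⟩ := hnt
  have hv : k + 6 < Fintype.card X := by
    by_contra c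
    exact h2 (complete H hk (by omega) hne T0 h1)
  obtain ⟨c, hc⟩ := avoid H 6 0 le_rfl
  have hD : Des (B.image compl) 6 c := fun T hT => by
    rw [← hc ∅ T rfl hT (by simp), filter_image, card_image_of_injective _ compl_injective]
    congr 1
    exact filter_congr fun b _ => by simp [subset_compl_iff_disjoint_right]
  refine ⟨hv, c, ?_, hD⟩
  obtain ⟨b, hb⟩ := hne
  obtain ⟨T, h3, h4⟩ := exists_subset_card_eq (s := bᶜ) (n := 6)
    (by rw [card_compl, hk b hb]; omega)
  rw [← hD T h4]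
  exact card_pos.2 ⟨bᶜ, mem_filter.2 ⟨mem_image_of_mem _ hb, h3⟩⟩

lemma image_compl' {g : X → X} (hg : Function.Bijective g) (b : Finset X) :
    bᶜ.image g = (b.image g)ᶜ := by
  ext y
  obtain ⟨x, rfl⟩ := hg.2 y
  simp [hg.1.eq_iff]

lemma even_of_invol {α : Type} (s : Finset α) (g : α → α) (h1 : ∀ a ∈ s, g a ∈ s)
    (h2 : ∀ a ∈ s, g (g a) = a) (h3 : ∀ a ∈ s, g a ≠ a) : Even s.card := by
  have h := Finset.sum_involution (s := s) (f := fun _ => (1 : ZMod 2)) (fun a _ => g a)
    (fun _ _ => rfl) (fun a ha _ => h3 a ha) h1 h2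
  rwa [sum_const, nsmul_eq_mul, mul_one, ZMod.natCast_eq_zero_iff_even] at h

variable {τ : Equiv.Perm X}

omit [Fintype X] in
lemma image_image_self (hτ : ∀ x, τ (τ x) = x) (b : Finset X) : (b.image τ).image τ = b := by
  rw [image_image]
  conv_rhs => rw [← image_id (s := b)]
  exact image_congr fun x _ => hτ x

omit [Fintype X] in
/-- The fixed blocks through an invariant set have the parity of all blocks through it. -/
lemma fixed_parity (hτ : ∀ x, τ (τ x) = x) (hinv : ∀ b ∈ B, b.image τ ∈ B) {T : Finset X}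
    (hT : ∀ x ∈ T, τ x ∈ T) :
    ((B.filter fun b => T ⊆ b ∧ b.image τ = b).card : ZMod 2) =
      (B.filter fun b => T ⊆ b).card := by
  have h := even_of_invol (B.filter fun b => T ⊆ b ∧ ¬ b.image τ = b) (fun b => b.image τ)
    (fun b hb => by
      obtain ⟨h1, h2, h3⟩ := mem_filter.1 hb
      exact mem_filter.2 ⟨hinv b h1, fun x hx => mem_image.2 ⟨τ x, h2 (hT x hx), hτ x⟩,
        by rw [image_image_self hτ]; exact fun e => h3 e.symm⟩)
    (fun b _ => image_image_self hτ b) fun b hb => (mem_filter.1 hb).2.2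
  rw [← card_filter_add_card_filter_not (s := B.filter fun b => T ⊆ b) (fun b => b.image τ = b),
    filter_filter, filter_filter, Nat.cast_add, ZMod.natCast_eq_zero_iff_even.2 h, add_zero]

/-- The cycles of length two. -/
def orb (τ : Equiv.Perm X) : Finset (Finset X) :=
  (univ.filter fun x => τ x ≠ x).image fun x => {x, τ x}

lemma mem_orb {O : Finset X} : O ∈ orb τ ↔ ∃ x, τ x ≠ x ∧ {x, τ x} = O := by simp [orb]

lemma orb_card {O : Finset X} (h : O ∈ orb τ) : O.card = 2 := by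
  obtain ⟨x, hx, rfl⟩ := mem_orb.1 h
  exact card_pair hx.symm

lemma orb_eq (hτ : ∀ x, τ (τ x) = x) {O : Finset X} (h : O ∈ orb τ) {y : X} (hy : y ∈ O) :
    τ y ≠ y ∧ {y, τ y} = O := by
  obtain ⟨x, hx, rfl⟩ := mem_orb.1 h
  rcases mem_insert.1 hy with rfl | hy
  · exact ⟨hx, rfl⟩
  · rw [mem_singleton.1 hy, hτ]
    exact ⟨hx.symm, pair_comm _ _⟩

lemma orb_inv (hτ : ∀ x, τ (τ x) = x) {O : Finset X} (h : O ∈ orb τ) {y : X} (hy : y ∈ O) :
    τ y ∈ O := by
  rw [← (orb_eq hτ h hy).2]; simp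

lemma orb_disj (hτ : ∀ x, τ (τ x) = x) {O O' : Finset X} (h : O ∈ orb τ) (h' : O' ∈ orb τ)
    (hne : O ≠ O') : Disjoint O O' :=
  disjoint_left.2 fun _ hy hy' => hne ((orb_eq hτ h hy).2.symm.trans (orb_eq hτ h' hy').2)

lemma two_mul_orb (hτ : ∀ x, τ (τ x) = x) {S : Finset X} (hS : ∀ x ∈ S, τ x ∈ S) :
    (S.filter fun x => τ x ≠ x).card = 2 * ((orb τ).filter fun O => O ⊆ S).card := by
  have h : (S.filter fun x => τ x ≠ x) = ((orb τ).filter fun O => O ⊆ S).biUnion fun O => O := by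
    ext x
    simp only [mem_filter, mem_biUnion]
    exact ⟨fun h => ⟨{x, τ x}, ⟨mem_orb.2 ⟨x, h.2, rfl⟩, by
      simp [insert_subset_iff, h.1, hS x h.1]⟩, by simp⟩,
      fun ⟨O, h1, h2⟩ => ⟨h1.2 h2, (orb_eq hτ h1.1 h2).1⟩⟩
  rw [h, card_biUnion fun O hO O' hO' hne =>
    orb_disj hτ (mem_filter.1 hO).1 (mem_filter.1 hO').1 hne,
    sum_congr rfl (g := fun _ => 2) fun O hO => orb_card (mem_filter.1 hO).1, sum_const,
    smul_eq_mul, mul_comm]

/-- The rank bound over the field with two elements. -/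
lemma rank (hτ : ∀ x, τ (τ x) = x) (hinv : ∀ b ∈ B, b.image τ ∈ B) {l4 : ℕ} (h4 : Des B 4 l4)
    (h6 : Des B 6 l) (e4 : Even l4) (o6 : Odd l) {O1 : Finset X} (h1 : O1 ∈ orb τ) :
    (orb τ).card - 2 ≤ (B.filter fun b => O1 ⊆ b ∧ b.image τ = b).card := by
  set R := B.filter fun b => O1 ⊆ b ∧ b.image τ = b with hR
  rcases ((orb τ).erase O1).eq_empty_or_nonempty with h0 | ⟨O0, h0⟩
  · have := card_erase_of_mem h1
    rw [h0, card_empty] at this
    omega
  let w : Finset X → R → ZMod 2 := fun O b => if O ⊆ b.1 then 1 else 0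
  have pair : ∀ O ∈ (orb τ).erase O1, ∀ O' ∈ (orb τ).erase O1,
      ∑ b, w O b * w O' b = if O = O' then 0 else 1 := by
    intro O hO O' hO'
    obtain ⟨a1, a2⟩ := mem_erase.1 hO
    obtain ⟨a3, a4⟩ := mem_erase.1 hO'
    have e1 : ∑ b, w O b * w O' b =
        ((B.filter fun b => O1 ∪ (O ∪ O') ⊆ b ∧ b.image τ = b).card : ZMod 2) := by
      have : (B.filter fun b => O1 ∪ (O ∪ O') ⊆ b ∧ b.image τ = b) =
          R.filter fun b => O ⊆ b ∧ O' ⊆ b := by
        rw [hR, filter_filter]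
        exact filter_congr fun b _ => by simp only [union_subset_iff]; tauto
      rw [this, card_filter, Nat.cast_sum, ← sum_coe_sort R]
      refine sum_congr rfl fun b _ => ?_
      by_cases c : O ⊆ b.1 <;> by_cases c' : O' ⊆ b.1 <;> simp [w, c, c']
    rw [e1, fixed_parity hτ hinv fun x hx => by
      simp only [mem_union] at hx ⊢
      exact hx.imp (orb_inv hτ h1) (Or.imp (orb_inv hτ a2) (orb_inv hτ a4))]
    have d1 := orb_disj hτ h1 a2 a1.symm
    split_ifs with c
    · subst c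
      rw [h4 _ (by rw [union_self, card_union_of_disjoint d1, orb_card h1, orb_card a2]),
        ZMod.natCast_eq_zero_iff_even.2 e4]
    · rw [h6 _ (by
        rw [card_union_of_disjoint (disjoint_union_right.2 ⟨d1, orb_disj hτ h1 a4 a3.symm⟩),
          card_union_of_disjoint (orb_disj hτ a2 a4 c), orb_card h1, orb_card a2, orb_card a4]),
        ZMod.natCast_eq_one_iff_odd.2 o6]
  have li : LinearIndependent (ZMod 2) fun O : ((orb τ).erase O1).erase O0 => w O := by
    refine Fintype.linearIndependent_iff.2 fun g hg i => ?_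
    have key : ∀ O' ∈ (orb τ).erase O1,
        ∑ j : ((orb τ).erase O1).erase O0, g j * (if j.1 = O' then 0 else 1) = 0 := by
      intro O' hO'
      have : ∑ b, (∑ j : ((orb τ).erase O1).erase O0, g j • w j) b * w O' b = 0 := by
        rw [hg]
        exact sum_eq_zero fun b _ => zero_mul _
      simp only [Finset.sum_apply, Pi.smul_apply, smul_eq_mul, sum_mul, mul_assoc] at this
      rw [sum_comm] at this
      exact (sum_congr rfl fun j _ => by
        rw [← mul_sum, pair _ (mem_of_mem_erase j.2) _ hO']).symm.trans this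
    have k0 := key O0 h0
    have k1 := key i (mem_of_mem_erase i.2)
    rw [sum_congr rfl (g := g) fun j _ => by rw [if_neg (ne_of_mem_erase j.2), mul_one]] at k0
    rw [← add_sum_erase _ _ (mem_univ i)] at k0 k1
    rw [if_pos rfl, mul_zero, zero_add, sum_congr rfl (g := g) fun j hj => by
      rw [if_neg fun e => ne_of_mem_erase hj (Subtype.ext e), mul_one]] at k1
    rwa [k1, add_zero] at k0
  have := li.fintype_card_le_finrank
  rw [Module.finrank_fintype_fun_eq_card, Fintype.card_coe, Fintype.card_coe,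
    card_erase_of_mem h0, card_erase_of_mem h1] at this
  omega

/-- Many blocks are fixed by an involution. -/
lemma fixed_many (hτ : ∀ x, τ (τ x) = x) (hk : ∀ b ∈ B, b.card = k)
    (hinv : ∀ b ∈ B, b.image τ ∈ B) {l4 : ℕ} (h4 : Des B 4 l4)
    (h6 : Des B 6 l) (e4 : Even l4) (o6 : Odd l) {M : ℕ}
    (hM : M ≤ (univ.filter fun x => τ x ≠ x).card) :
    M * (M - 4) ≤ 2 * k * (B.filter fun b => b.image τ = b).card := by
  have h1 := two_mul_orb hτ (S := univ) fun x _ => mem_univ _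
  rw [filter_true_of_mem fun O _ => subset_univ O] at h1
  have h2 := card_nsmul_le_sum (orb τ) _ _ fun O hO => rank hτ hinv h4 h6 e4 o6 hO
  have h3 := sum_card_bipartiteAbove_eq_sum_card_bipartiteBelow (s := orb τ)
    (t := B.filter fun b => b.image τ = b) fun O b => O ⊆ b
  have h5 : ∑ O ∈ orb τ, (B.filter fun b => O ⊆ b ∧ b.image τ = b).card =
      ∑ b ∈ B.filter fun b => b.image τ = b, ((orb τ).filter fun O => O ⊆ b).card := by
    refine (sum_congr rfl fun O _ => ?_).trans h3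
    rw [bipartiteAbove, filter_filter]
    exact congrArg card (filter_congr fun b _ => and_comm)
  have h7 : 2 * ∑ b ∈ B.filter fun b => b.image τ = b, ((orb τ).filter fun O => O ⊆ b).card ≤
      (B.filter fun b => b.image τ = b).card * k := by
    rw [mul_sum]
    refine sum_le_card_nsmul _ _ _ fun b hb => ?_
    obtain ⟨a1, a2⟩ := mem_filter.1 hb
    rw [← two_mul_orb hτ fun x hx => a2 ▸ mem_image_of_mem _ hx, ← hk b a1]
    exact card_filter_le _ _
  rw [h5, smul_eq_mul] at h2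
  rw [h1] at hM
  calc M * (M - 4) ≤ 2 * (orb τ).card * (2 * ((orb τ).card - 2)) :=
        Nat.mul_le_mul hM (by omega)
    _ = 2 * (2 * ((orb τ).card * ((orb τ).card - 2))) := by ring
    _ ≤ 2 * ((B.filter fun b => b.image τ = b).card * k) := by omega
    _ = _ := by ring

end Pool.Agent.MP_47ed89_co.H99
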