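import Mathlib.Data.Real.Basic
import Mathlib.GroupTheory.Index
import Mathlib.GroupTheory.GroupAction.Quotient
import Pool.Agent.MP_47ed89_co.h99.Gen

/-!
Numerical estimates, a finite check and a lemma on orbits.
-/

set_option autoImplicit false

namespace Pool.Agent.MP_47ed89_co.H99

open Finset

lemma num_energy {k v n E δ : ℝ} (hδ : δ * v = k) (h2 : 2 * δ ≤ 1) (hk : 0 ≤ k) (hv : 20 ≤ v)
    (hn : n * (v - 3) = k * (k - 1) * (k - 2) * (k - 3)) (hE : E ≤ n + 3 * k ^ 2) :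
    E - δ * k ^ 3 ≤ 4 * (k * (1 - δ)) ^ 2 := by
  have h1 : (n + 3 * k ^ 2 - δ * k ^ 3) * (v - 3) = k ^ 2 * (3 * v * (1 - δ) ^ 2 + 2) - 6 * k := by
    linear_combination hn + (6 * k ^ 2 - k ^ 3 - 3 * k ^ 2 * δ) * hδ
  have h3 : 1 / 4 * 8 ≤ (1 - δ) ^ 2 * (v - 12) :=
    mul_le_mul (by nlinarith) (by linarith) (by norm_num) (sq_nonneg _)
  have h4 := mul_le_mul_of_nonneg_left h3 (sq_nonneg k)
  refine (sub_le_sub_right hE _).trans (le_of_mul_le_mul_right (a := v - 3) ?_ (by linarith))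
  rw [h1]
  linarith

lemma num_hex {k v m h Z D E n : ℕ} (hv : 2 ^ 19 ≤ v) (h1 : m ^ 6 ≤ h * Z) (h2 : 32 * h ≤ v)
    (h3 : Z ≤ D + 15 * (k * E)) (h4 : E ≤ n + 3 * k ^ 2)
    (h5 : n * (v - 3) = k * (k - 1) * (k - 2) * (k - 3))
    (h6 : D * (v * (v - 1) * (v - 2) * (v - 3) * (v - 4) * (v - 5)) ≤
      v ^ 5 * (k * (k - 1) * (k - 2) * (k - 3) * (k - 4) * (k - 5)))
    (h7 : 7 * k ≤ 8 * m)
    (h8 : 16 * ((v - 3) * (v - 5)) ≤ k * (k - 1) * (k - 2) * (k - 3) * (k - 4) * (k - 5)) :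
    False := by
  have a6 : k * (k - 1) * (k - 2) * (k - 3) * (k - 4) * (k - 5) ≤ k ^ 6 :=
    le_of_le_of_eq (by gcongr k * ?_ * ?_ * ?_ * ?_ * ?_ <;> exact Nat.sub_le _ _)
      (show k * k * k * k * k * k = _ by ring)
  have a4 : n * (v - 3) ≤ k ^ 4 :=
    h5 ▸ le_of_le_of_eq (by gcongr k * ?_ * ?_ * ?_ <;> exact Nat.sub_le _ _)
      (show k * k * k * k = _ by ring)
  have b1 : 100 * (D * v) ≤ 101 * k ^ 6 := by
    refine Nat.le_of_mul_le_mul_left (c := 999 ^ 5 * v ^ 5) ?_ (by positivity)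
    calc _ = 100 * (D * (v * (999 * v) * (999 * v) * (999 * v) * (999 * v) * (999 * v))) := by ring
      _ ≤ 100 * (D * (v * (1000 * (v - 1)) * (1000 * (v - 2)) * (1000 * (v - 3)) *
          (1000 * (v - 4)) * (1000 * (v - 5)))) := by
        gcongr 100 * (D * (v * ?_ * ?_ * ?_ * ?_ * ?_)) <;> omega
      _ = 100 * 1000 ^ 5 * (D * (v * (v - 1) * (v - 2) * (v - 3) * (v - 4) * (v - 5))) := by ring
      _ ≤ 101 * 999 ^ 5 * (v ^ 5 * k ^ 6) :=
        Nat.mul_le_mul (by norm_num) (h6.trans (Nat.mul_le_mul_left _ a6))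
      _ = _ := by ring
  have b2 : 399 * v ≤ 100 * k ^ 3 := by
    refine (Nat.pow_le_pow_iff_left two_ne_zero).1 (Nat.le_of_mul_le_mul_left (c := 100) ?_
      (by norm_num))
    calc _ = 15920100 * (v * v) := by ring
      _ ≤ 15968016 * (v * v) := Nat.mul_le_mul_right _ (by norm_num)
      _ = 16 * ((999 * v) * (999 * v)) := by ring
      _ ≤ 16 * ((1000 * (v - 3)) * (1000 * (v - 5))) := by gcongr 16 * (?_ * ?_) <;> omega
      _ = 1000000 * (16 * ((v - 3) * (v - 5))) := by ring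
      _ ≤ 1000000 * k ^ 6 := Nat.mul_le_mul_left _ (h8.trans a6)
      _ = _ := by ring
  have b3 : 100 ≤ k := by
    by_contra c
    have := Nat.pow_le_pow_left (show k ≤ 100 by omega) 3
    omega
  have b4 : 100 * (n * v) ≤ 101 * k ^ 4 := by
    calc _ = n * (100 * v) := by ring
      _ ≤ n * (101 * (v - 3)) := Nat.mul_le_mul_left _ (by omega)
      _ = 101 * (n * (v - 3)) := by ring
      _ ≤ _ := Nat.mul_le_mul_left _ a4
  have c1 : 10000 * (k * n * v) ≤ 101 * k ^ 6 := by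
    calc _ = 100 * k * (100 * (n * v)) := by ring
      _ ≤ k * k * (101 * k ^ 4) := Nat.mul_le_mul (Nat.mul_le_mul_right _ b3) b4
      _ = _ := by ring
  have c2 : 399 * (k ^ 3 * v) ≤ 100 * k ^ 6 := by
    calc _ = k ^ 3 * (399 * v) := by ring
      _ ≤ k ^ 3 * (100 * k ^ 3) := Nat.mul_le_mul_left _ b2
      _ = _ := by ring
  have c3 : 32 * 7 ^ 6 * k ^ 6 ≤ 8 ^ 6 * (D * v + 15 * (k * n * v) + 45 * (k ^ 3 * v)) := by
    calc _ = 32 * (7 * k) ^ 6 := by ring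
      _ ≤ 32 * (8 * m) ^ 6 := by gcongr
      _ = 8 ^ 6 * (32 * m ^ 6) := by ring
      _ ≤ 8 ^ 6 * (32 * (h * Z)) := by gcongr
      _ = 8 ^ 6 * (32 * h * Z) := by ring
      _ ≤ 8 ^ 6 * (v * (D + 15 * (k * (n + 3 * k ^ 2)))) := by
        gcongr 8 ^ 6 * (?_ * ?_)
        exact h3.trans (by gcongr)
      _ = _ := by ring
  have c4 : 0 < k ^ 6 := by positivity
  omega

/-- A bounded universal quantifier. -/
def allB (p : ℕ → Bool) (n : ℕ) : Bool := n.rec true fun x ih => (p x).rec false ih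

lemma allB_spec {p : ℕ → Bool} {n : ℕ} (h : allB p n = true) {x : ℕ} (hx : x < n) : p x = true := by
  induction n with
  | zero => omega
  | succ n ih =>
    change (p n).rec (motive := fun _ => Bool) false (allB p n) = true at h
    cases e : p n <;> rw [e] at h
    · cases h
    · rcases Nat.lt_succ_iff_lt_or_eq.1 hx with c | rfl
      exacts [ih h c, e]

/-- The finite check for one value. -/
def one (M x : ℕ) : Bool :=
  Nat.ble 1 (Nat.mod (Nat.mul (Nat.mul (Nat.mul (Nat.mul (Nat.mul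
    (Nat.add x 7) (Nat.add x 6)) (Nat.add x 5)) (Nat.add x 4)) (Nat.add x 3)) (Nat.add x 2)) M)

lemma check : allB (fun d => allB (fun i => allB (fun j => one ((2 ^ d - 3) * (2 ^ d - 5))
    (Nat.add (Nat.mul i 256) j)) (min 256 (2 ^ (d - 1) - 6))) (2 ^ (d - 9))) 19 = true := by
  decide +kernel

lemma small {d k : ℕ} (h6 : 6 < k) (h2 : 2 * k ≤ 2 ^ d)
    (h : (2 ^ d - 3) * (2 ^ d - 5) ∣ k * (k - 1) * (k - 2) * (k - 3) * (k - 4) * (k - 5)) :
    19 ≤ d := by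
  by_contra c
  obtain ⟨x, rfl⟩ : ∃ x, k = x + 7 := ⟨k - 7, by omega⟩
  have h1 := allB_spec (allB_spec (allB_spec check (x := d) (by omega)) (x := x / 256)
    (by interval_cases d <;> omega)) (x := x % 256) (by interval_cases d <;> omega)
  rw [show Nat.add (Nat.mul (x / 256) 256) (x % 256) = x from Nat.div_add_mod' x 256] at h1
  exact absurd (Nat.mod_eq_zero_of_dvd h) (Nat.one_le_iff_ne_zero.1 (Nat.le_of_ble_eq_true h1))

lemma dvd_card {T α : Type} [AddGroup T] [AddAction T α] [DecidableEq α] {n : ℕ} (Ω : Finset α)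
    (hΩ : ∀ φ : T, ∀ b ∈ Ω, φ +ᵥ b ∈ Ω) (h : ∀ b ∈ Ω, n ∣ (AddAction.stabilizer T b).index) :
    n ∣ Ω.card := by
  classical
  induction Ω using Finset.strongInduction with | H Ω ih =>
  rcases Ω.eq_empty_or_nonempty with rfl | ⟨b, hb⟩
  · simp
  rw [← card_filter_add_card_filter_not (· ∈ AddAction.orbit T b)]
  refine dvd_add ?_ (ih _ (filter_ssubset.2 ⟨b, hb, by simp⟩) (fun φ c hc => ?_)
    fun c hc => h c (mem_filter.1 hc).1)
  · refine (h b hb).trans (dvd_of_eq (Eq.symm ?_))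
    rw [AddAction.index_stabilizer, ← Set.ncard_coe_finset]
    congr 1
    ext c
    simp only [coe_filter, Set.mem_ofPred_eq, and_iff_right_iff_imp]
    rintro ⟨φ, rfl⟩
    exact hΩ φ b hb
  · obtain ⟨a1, a2⟩ := mem_filter.1 hc
    exact mem_filter.2 ⟨hΩ φ c a1, fun ⟨ψ, e⟩ => a2 ⟨-φ + ψ, by simp [add_vadd, e]⟩⟩

end Pool.Agent.MP_47ed89_co.H99
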