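import Pool.Agent.MP_47ed89_co.h99.Slice
import Pool.Agent.MP_47ed89_co.h99.Num

/-!
The index of a 6-design on which the affine group over the field with two elements is
block-transitive is divisible by a large power of two.
-/

set_option autoImplicit false

namespace Pool.Agent.MP_47ed89_co.H99

open Finset Module Pool.Agent.MP_47ed89_co.H58

lemma card_eq {M : Type} [AddCommGroup M] [Module (ZMod 2) M] [Module.Finite (ZMod 2) M] :
    Nat.card M = 2 ^ finrank (ZMod 2) M := by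
  rw [Module.natCard_eq_pow_finrank (K := ZMod 2), Nat.card_zmod]

variable {Q W : Type} [AddCommGroup Q] [Module (ZMod 2) Q] [Fintype Q] [DecidableEq Q]
  [AddCommGroup W] [Module (ZMod 2) W] [Fintype W] [DecidableEq W]
  {B : Finset (Finset (Q × W))} {b : Finset (Q × W)} {k l d : ℕ}

/-- The slices with few periods do not lie in a subspace of codimension five. -/
def Spread (b : Finset (Q × W)) : Prop :=
  ∀ Y : Submodule (ZMod 2) Q, 32 * Nat.card Y ≤ Fintype.card Q →
    ∃ c ∉ Y, (per b c).card < 256 * Fintype.card Q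

lemma spread (hv : Fintype.card (Q × W) = 2 ^ d) (hk : ∀ b ∈ B, b.card = k) (h6 : 6 < k)
    (h2 : 2 * k ≤ Fintype.card (Q × W)) (hl : 0 < l) (hd : Des B 6 l)
    (htr : ∀ b₁ ∈ B, ∀ b₂ ∈ B, ∃ g : (Q × W) ≃ᵃ[ZMod 2] (Q × W), b₁.image g = b₂) :
    19 ≤ d ∧ ∀ b ∈ B, Spread b := by
  classical
  have h1 := six_dvd hk h6 (by omega) hl hd htr
  have h19 := small h6 (hv ▸ h2) (hv ▸ h1)
  refine ⟨h19, fun b hb Y hY => ?_⟩
  by_contra! hU
  have h3 : 2 ^ 19 ≤ Fintype.card (Q × W) := hv ▸ Nat.pow_le_pow_right two_pos h19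
  obtain ⟨n, a1, a2⟩ := quad_le hk h6 (by omega) hd htr hb
  obtain ⟨l1, l2, l3, l4, l5, h⟩ := hd.idx hk h6 (by omega)
  set Y' := univ.filter (· ∈ Y) with hY'
  rw [show Nat.card Y = Y'.card from Nat.subtype_card _ (by simp [hY'])] at hY
  have v0 : (0 : ℝ) < Fintype.card (Q × W) := by positivity
  have k0 : (0 : ℝ) < k := by positivity
  have b1 : (k : ℝ) / Fintype.card (Q × W) * Fintype.card (Q × W) = k := div_mul_cancel₀ _ v0.ne'
  have b2 : 2 * ((k : ℝ) / Fintype.card (Q × W)) ≤ 1 := by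
    rw [← mul_div_assoc, div_le_one v0]
    exact_mod_cast h2
  have a3 := concentrate b Y' hY (fun c hc => hU c (by simpa [hY'] using hc)) (div_pos k0 v0) b2
    (hk b hb ▸ b1) (by
      rw [hk b hb]
      refine num_energy (n := n) b1 b2 k0.le (by exact_mod_cast (by omega)) ?_ (by exact_mod_cast a2)
      have := congrArg (Nat.cast (R := ℝ)) a1
      push_cast [Nat.cast_sub (show 3 ≤ Fintype.card (Q × W) by omega), Nat.cast_sub (show 1 ≤ k by omega),
        Nat.cast_sub (show 2 ≤ k by omega), Nat.cast_sub (show 3 ≤ k by omega)] at this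
      exact this)
  have a4 := hex_le b
  rw [hk b hb] at a3 a4
  refine num_hex h3 (hex_ge b (Y' ×ˢ univ) fun x hx y hy => ?_) ?_ a4 a2 a1 ?_ a3 ?_
  · simp only [hY', mem_product, mem_filter, mem_univ, true_and, and_true] at hx hy ⊢
    exact add_mem hx hy
  · rw [card_product, Fintype.card_prod, card_univ, ← mul_assoc]
    exact Nat.mul_le_mul_right _ hY
  · refine Nat.le_of_mul_le_mul_left ?_ (card_pos.2 ⟨b, hb⟩)
    rw [← mul_assoc, mul_left_comm B.card, h.prod, ← mul_assoc (_ ^ 5)]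
    exact Nat.mul_le_mul_right _ (hex_inj hd htr hb)
  · have e : Fintype.card (Q × W) % 2 = 0 := by
      rw [hv]
      exact Nat.mod_eq_zero_of_dvd (dvd_pow_self 2 (by omega))
    refine Nat.le_of_dvd ?_ (((Nat.coprime_two_left.2 (Odd.mul (Nat.odd_iff.2 (by omega))
      (Nat.odd_iff.2 (by omega)))).pow_left 4).mul_dvd_of_dvd_of_dvd ((show 2 ^ 4 ∣ Nat.factorial 6 by
        decide).trans ((Nat.factorial_dvd_descFactorial k 6).trans (dvd_of_eq ?_))) h1)
    · obtain ⟨x, rfl⟩ : ∃ x, k = x + 6 := ⟨k - 6, by omega⟩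
      simp
    · simp [Nat.descFactorial]
      ring

lemma index_dvd (h : Spread b) (S : AddSubgroup (Q →ₗ[ZMod 2] W))
    (hS : ∀ φ ∈ S, ∀ c, φ c ∈ per b c) : 2 ^ ((finrank (ZMod 2) Q - 4) *
      (finrank (ZMod 2) W - finrank (ZMod 2) Q - 8)) ∣ S.index := by
  classical
  have hQ : Fintype.card Q = _ := Nat.card_eq_fintype_card.symm.trans card_eq
  have hW : Fintype.card W = _ := Nat.card_eq_fintype_card.symm.trans card_eq
  have hT : S.index * Nat.card S = _ := S.index_mul_card.trans card_eq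
  rw [Module.finrank_linearMap] at hT
  obtain ⟨β₀, a1, a2, a3⟩ := exists_linearIndependent (ZMod 2)
    {c | (per b c).card < 256 * Fintype.card Q}
  obtain ⟨β, -, a4, a5, a6⟩ := exists_linearIndepOn_id_extension a3 (Set.subset_univ _)
  lift β₀ to Finset Q using Set.toFinite _
  lift β to Finset Q using Set.toFinite _
  have b1 := finrank_span_finset_eq_card a3
  have b2 := finrank_span_finset_eq_card a6
  have b3 : Submodule.span (ZMod 2) (β : Set Q) = ⊤ := eq_top_iff.2 a5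
  rw [b3, finrank_top] at b2
  have b4 : β₀ ⊆ β := coe_subset.1 a4
  have b5 : finrank (ZMod 2) Q < β₀.card + 5 := by
    by_contra c
    obtain ⟨c, c1, c2⟩ := h (Submodule.span (ZMod 2) β₀) (by
      rw [card_sub, b1, hQ, show 32 = 2 ^ 5 from rfl, ← pow_add]
      exact Nat.pow_le_pow_right two_pos (by omega))
    exact c1 (a2 ▸ Submodule.subset_span c2)
  have b6 : Nat.card S ≤ ∏ c ∈ β, (per b c).card := by
    rw [← prod_coe_sort, ← Fintype.card_piFinset, ← Nat.card_eq_finsetCard]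
    exact Nat.card_le_card_of_injective (fun φ => ⟨fun c => φ.1 c,
      Fintype.mem_piFinset.2 fun c => hS _ φ.2 c⟩) fun φ ψ e => Subtype.ext
        (LinearMap.ext_on b3 fun c hc => congrFun (congrArg Subtype.val e) ⟨c, hc⟩)
  rw [← prod_sdiff b4] at b6
  have b7 := b6.trans (Nat.mul_le_mul (prod_le_pow_card _ _ _ fun c _ => card_le_univ _)
    (prod_le_pow_card _ _ _ fun c hc => le_of_lt (a1 hc)))
  obtain ⟨i, -, hi⟩ := (Nat.dvd_prime_pow Nat.prime_two).1 (Dvd.intro _ hT)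
  have b8 := hT.ge.trans (Nat.mul_le_mul_left _ b7)
  rw [hi, hQ, hW, card_sdiff_of_subset b4, show 256 = 2 ^ 8 from rfl, ← pow_add, ← pow_mul,
    ← pow_mul, ← pow_add, ← pow_add, Nat.pow_le_pow_iff_right one_lt_two, ← b2] at b8
  have b9 := card_le_card b4
  rw [hi, ← b2] at *
  refine pow_dvd_pow 2 ?_
  generalize finrank (ZMod 2) Q = s at *
  generalize finrank (ZMod 2) W = r at *
  generalize β₀.card = j at *
  rcases le_total r (s + 8) with c | c
  · rw [show r - s - 8 = 0 by omega]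
    omega
  obtain ⟨u, rfl⟩ := Nat.exists_eq_add_of_le b9
  obtain ⟨w, rfl⟩ := Nat.exists_eq_add_of_le c
  rw [Nat.add_sub_cancel_left] at b8
  rw [show j + u + 8 + w - (j + u) - 8 = w by omega]
  exact (Nat.mul_le_mul_right w (show j + u - 4 ≤ j by omega)).trans (by nlinarith)

/-- The shear attached to a linear map. -/
def shear (φ : Q →ₗ[ZMod 2] W) : (Q × W) ≃ᵃ[ZMod 2] (Q × W) :=
  ((LinearEquiv.refl _ Q).skewProd (LinearEquiv.refl _ W) φ).toAffineEquiv

theorem agl (hk : ∀ b ∈ B, b.card = k) (h6 : 6 < k) (hkv : k < Fintype.card (Q × W)) (hl : 0 < l)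
    (hd : Des B 6 l) (hnt : ∃ T : Finset (Q × W), T.card = k ∧ T ∉ B)
    (hinv : ∀ g : (Q × W) ≃ᵃ[ZMod 2] (Q × W), ∀ b ∈ B, b.image g ∈ B)
    (htr : ∀ b₁ ∈ B, ∀ b₂ ∈ B, ∃ g : (Q × W) ≃ᵃ[ZMod 2] (Q × W), b₁.image g = b₂) :
    19 ≤ finrank (ZMod 2) Q + finrank (ZMod 2) W ∧ 2 ^ ((finrank (ZMod 2) Q - 4) *
      (finrank (ZMod 2) W - finrank (ZMod 2) Q - 8)) ∣ l := by
  have hv : Fintype.card (Q × W) = _ := Nat.card_eq_fintype_card.symm.trans card_eq
  rw [finrank_prod] at hv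
  obtain ⟨h19, hs⟩ : 19 ≤ finrank (ZMod 2) Q + finrank (ZMod 2) W ∧ ∀ b ∈ B, Spread b := by
    rcases le_total (2 * k) (Fintype.card (Q × W)) with c | c
    · exact spread hv hk h6 c hl hd htr
    obtain ⟨a1, l', a2, a3⟩ := compl_des hk h6 hkv hl hd hnt
    obtain ⟨a4, a5⟩ := spread (k := Fintype.card (Q × W) - k) hv (fun b hb => by
      obtain ⟨c, hc, rfl⟩ := mem_image.1 hb
      rw [card_compl, hk c hc]) (by omega) (by omega) a2 a3 fun c₁ h₁ c₂ h₂ => by
        obtain ⟨b₁, e₁, rfl⟩ := mem_image.1 h₁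
        obtain ⟨b₂, e₂, rfl⟩ := mem_image.1 h₂
        obtain ⟨g, rfl⟩ := htr b₁ e₁ b₂ e₂
        exact ⟨g, image_compl' g.bijective b₁⟩
    refine ⟨a4, fun b hb Y hY => ?_⟩
    simpa only [per, mem_compl, not_iff_not] using a5 _ (mem_image_of_mem _ hb) Y hY
  refine ⟨h19, ?_⟩
  rcases le_total (finrank (ZMod 2) W) 8 with c | c
  · rw [show finrank (ZMod 2) W - finrank (ZMod 2) Q - 8 = 0 by omega]
    exact one_dvd l
  obtain ⟨S, -, hS⟩ := exists_subset_card_eq (s := (univ : Finset W)) (n := 6) (by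
    rw [card_univ, ← Nat.card_eq_fintype_card, card_eq]
    exact le_trans (by norm_num) (Nat.pow_le_pow_right two_pos c))
  have sh : ∀ (φ : Q →ₗ[ZMod 2] W) c y, shear φ (c, y) = (c, y + φ c) := fun _ _ _ => rfl
  let _ : AddAction (Q →ₗ[ZMod 2] W) (Finset (Q × W)) :=
    { vadd := fun φ b => b.image (shear φ)
      zero_vadd := fun b => (image_congr fun x _ => by simp [sh 0 x.1 x.2]).trans image_id
      add_vadd := fun φ ψ b => (image_congr fun x _ => by
        simp [sh _ x.1 x.2, sh, add_left_comm, add_comm]).trans image_image.symm }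
  rw [← hd (S.image (Prod.mk 0)) (by rw [card_image_of_injective _ (Prod.mk_right_injective 0), hS])]
  refine dvd_card (T := Q →ₗ[ZMod 2] W) _ (fun φ b hb => ?_) fun b hb =>
    index_dvd (hs b (mem_filter.1 hb).1) _ fun φ hφ c => mem_filter.2 ⟨mem_univ _, fun y => ?_⟩
  · obtain ⟨a1, a2⟩ := mem_filter.1 hb
    refine mem_filter.2 ⟨hinv _ b a1, fun x hx => mem_image.2 ⟨x, a2 hx, ?_⟩⟩
    obtain ⟨y, -, rfl⟩ := mem_image.1 hx
    simp [sh]
  · rw [← (shear φ).injective.mem_finset_image (s := b) (a := (c, y)),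
      show b.image (shear φ) = b from hφ, sh]

end Pool.Agent.MP_47ed89_co.H99
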