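import Pool.Agent.MP_47ed89_co.h99.Inv

/-!
A block-transitive 6-design whose group lies between `PSL(2, q)` and `PGL(2, q)` has even index.
-/

set_option autoImplicit false

namespace Pool.Agent.MP_47ed89_co.H99

open Finset Pool.Agent.MP_47ed89_co.H58 Projectivization
open scoped LinearAlgebra.Projectivization Pointwise

lemma eight_dvd {s o : ℕ} (ho : Odd o) (h : 8 ∣ s * o) (h0 : 0 < s) : 8 ≤ s :=
  Nat.le_of_dvd h0 (((Nat.coprime_two_left.2 ho).pow_left 3).dvd_of_dvd_mul_right h)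

lemma ar_seven {q c : ℕ} (hq : 13 ≤ q) (h : 5040 = c * ((q - 2) * (q - 3) * (q - 4))) : False := by
  have h1 : q ≤ 20 := by
    by_contra e
    have a : 19 * 18 * 17 ≤ (q - 2) * (q - 3) * (q - 4) := by gcongr <;> omega
    have := Nat.le_of_dvd (by norm_num) (Dvd.intro_left _ h.symm)
    omega
  interval_cases q <;> omega

lemma ar_even {t x s l l4 : ℕ} (hl : Odd l) (h0 : 0 < s) (h8 : s < 8)
    (h : (x + 5) * (x + 4) * (x + 3) * (x + 2) * (x + 1) * x =
      s * l * ((8 * t + 6) * (8 * t + 5) * (8 * t + 4)))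
    (h4 : l4 * ((x + 1) * x) = l * ((8 * t + 5) * (8 * t + 4))) : 2 ≤ (x + 5) % 4 ∧ Even l4 := by
  have ho : Odd (l * ((4 * t + 3) * (8 * t + 5) * (2 * t + 1))) :=
    hl.mul (Odd.mul (Odd.mul ⟨2 * t + 1, by ring⟩ ⟨4 * t + 2, by ring⟩) ⟨t, rfl⟩)
  have key : ∀ o, Odd o → (x + 1) * x = 2 * o → Even l4 := fun o ho e =>
    (Nat.even_mul.1 ⟨l * ((8 * t + 5) * (2 * t + 1)), by
      rw [e] at h4
      refine Nat.eq_of_mul_eq_mul_left two_pos ?_
      linarith⟩).resolve_right (Nat.not_even_iff_odd.2 ho)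
  obtain ⟨m, rfl | rfl | rfl | rfl⟩ : ∃ m, x = 4 * m ∨ x = 4 * m + 1 ∨ x = 4 * m + 2 ∨
    x = 4 * m + 3 := ⟨x / 4, by omega⟩
  · obtain ⟨u, hu⟩ := Nat.even_mul_succ_self m
    have := eight_dvd ho ⟨u * ((4 * m + 5) * (4 * m + 3) * (2 * m + 1) * (4 * m + 1)), by
      refine Nat.eq_of_mul_eq_mul_left (show 0 < 8 by norm_num) ?_
      zify at h hu ⊢
      linear_combination (32 * ((4 * m + 5) * (4 * m + 3) * (2 * m + 1) * (4 * m + 1)) : ℤ) * hu - h⟩ h0
    omega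
  · exact ⟨by omega, key ((2 * m + 1) * (4 * m + 1)) (Odd.mul ⟨m, rfl⟩ ⟨2 * m, by ring⟩) (by ring)⟩
  · exact ⟨by omega, key ((2 * m + 1) * (4 * m + 3)) (Odd.mul ⟨m, rfl⟩ ⟨2 * m + 1, by ring⟩) (by ring)⟩
  · obtain ⟨u, hu⟩ := Nat.even_mul_succ_self (m + 1)
    have := eight_dvd ho ⟨u * ((4 * m + 7) * (2 * m + 3) * (4 * m + 5) * (4 * m + 3)), by
      refine Nat.eq_of_mul_eq_mul_left (show 0 < 8 by norm_num) ?_
      zify at h hu ⊢
      linear_combination (32 * ((4 * m + 7) * (2 * m + 3) * (4 * m + 5) * (4 * m + 3)) : ℤ) * hu - h⟩ h0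
    omega

/-- The index equations when `s` times the number of blocks is `v (v - 1) (v - 2)`. -/
lemma idx_eq {X : Type} [DecidableEq X] {B : Finset (Finset X)} {x y l1 l2 l3 l4 l5 l s : ℕ}
    (h : Idx B (x + 5) (y + 5) B.card l1 l2 l3 l4 l5 l)
    (hs : s * B.card = (y + 5) * (y + 4) * (y + 3)) :
    (x + 5) * (x + 4) * (x + 3) * (x + 2) * (x + 1) * x = s * l * ((y + 2) * (y + 1) * y) ∧
      (x + 5) * (x + 4) * (x + 3) * (x + 2) = s * (l4 * (y + 2)) ∧
      l4 * ((x + 1) * x) = l * ((y + 1) * y) := by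
  have e0 : B.card * (x + 5) = l1 * (y + 5) := h.e0
  have e1 : l1 * (x + 4) = l2 * (y + 4) := h.e1
  have e2 : l2 * (x + 3) = l3 * (y + 3) := h.e2
  have e3 : l3 * (x + 2) = l4 * (y + 2) := h.e3
  have e4 : l4 * (x + 1) = l5 * (y + 1) := h.e4
  have e5 : l5 * x = l * y := h.e5
  have a : (x + 5) * (x + 4) * (x + 3) * (x + 2) = s * (l4 * (y + 2)) := by
    refine Nat.eq_of_mul_eq_mul_left (show 0 < (y + 5) * (y + 4) * (y + 3) by positivity) ?_
    zify at *
    linear_combination (-(x + 5) * (x + 4) * (x + 3) * (x + 2) : ℤ) * hs +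
      (s * (x + 4) * (x + 3) * (x + 2) : ℤ) * e0 + (s * (y + 5) * (x + 3) * (x + 2) : ℤ) * e1 +
      (s * (y + 5) * (y + 4) * (x + 2) : ℤ) * e2 + (s * (y + 5) * (y + 4) * (y + 3) : ℤ) * e3
  have b : l4 * ((x + 1) * x) = l * ((y + 1) * y) := by
    zify at *
    linear_combination (x : ℤ) * e4 + (y + 1 : ℤ) * e5
  refine ⟨?_, a, b⟩
  rw [a]
  zify at *
  linear_combination (s * (y + 2) : ℤ) * b

variable {F : Type} [Field F] [Fintype F] [Fintype (ℙ F (Fin 2 → F))]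
  [DecidableEq (ℙ F (Fin 2 → F))] {G : Subgroup (Equiv.Perm (ℙ F (Fin 2 → F)))}
  {B : Finset (Finset (ℙ F (Fin 2 → F)))} {k l : ℕ}

lemma psl_tr (hG : G ≤ PGLsub F) (hP : PSLsub F ≤ G) (hk : ∀ b ∈ B, b.card = k)
    (hq : 6 ≤ Fintype.card F) (ho : Odd l) (hd : Des B 6 l)
    (hinv : ∀ σ ∈ G, ∀ b ∈ B, b.image σ ∈ B)
    (htr : ∀ b₁ ∈ B, ∀ b₂ ∈ B, ∃ σ ∈ G, b₁.image σ = b₂) :
    ∀ b₁ ∈ B, ∀ b₂ ∈ B, ∃ σ ∈ PSLsub F, b₁.image σ = b₂ := by
  intro b₁ h₁ b₂ h₂
  obtain ⟨σ, hσ, e⟩ := htr b₁ h₁ b₂ h₂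
  obtain ⟨A, hA⟩ := hG hσ
  obtain ⟨T, τ, a1, a2, a3, a4⟩ := exists_invol hA.1
  have a5 : τ ∈ G := by
    have := mul_mem (hP (ind_psl (ind_mul a2 (ind_inv hA)) (c := 1) (by
      simp [a1, hA.1]))) hσ
    rwa [inv_mul_cancel_right] at this
  have a6 := fixed_lower τ a4 B k hk (hinv τ a5) (fun T hT => hd T hT ▸ ho) 5
    (le_trans (by omega) (nonfixed_ge a2 a3))
  obtain ⟨b, hb⟩ := card_pos.1 (Nat.pos_of_mul_pos_right (lt_of_lt_of_le (by norm_num) a6))
  obtain ⟨ρ, hρ, e'⟩ := htr b (mem_filter.1 hb).1 b₂ h₂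
  obtain ⟨R, hR⟩ := hG hρ
  refine ⟨ρ * τ * ρ⁻¹ * σ, ind_psl (ind_mul (ind_mul (ind_mul hR a2) (ind_inv hR)) hA)
    (c := A.det) ?_, ?_⟩
  · have := hR.1
    simp only [Matrix.det_mul, Matrix.det_nonsing_inv, Ring.inverse_eq_inv', a1]
    field_simp
  · simp only [Equiv.Perm.coe_mul, ← image_image]
    rw [e, ← e', image_image (f := ρ), show (ρ⁻¹ : Equiv.Perm _) ∘ ρ = id from funext fun x => by simp,
      image_id, (mem_filter.1 hb).2]

lemma one_fixed (hq : Fintype.card F % 2 = 0) {σ : Equiv.Perm (ℙ F (Fin 2 → F))}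
    (h : σ ∈ PSLsub F) (h1 : σ ≠ 1) (h2 : σ * σ = 1) (x y : ℙ F (Fin 2 → F)) (hx : σ x = x)
    (hy : σ y = y) : x = y := by
  obtain ⟨A, hA⟩ := psl_le h
  have a1 := nonfixed_ge hA h1
  have a2 := two_mul_orb (τ := σ) (fun x => congrFun (congrArg DFunLike.coe h2) x) (S := univ)
    fun x _ => mem_univ _
  have a3 := card_filter_add_card_filter_not (s := univ) fun x => σ x = x
  rw [card_univ, card_line'] at a3
  simp only [ne_eq] at a1 a2
  exact card_le_one.1 (show (univ.filter fun x => σ x = x).card ≤ 1 by omega) x (by simpa) y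
    (by simpa)

theorem pgl (hG : G ≤ PGLsub F) (hP : PSLsub F ≤ G) (hk : ∀ b ∈ B, b.card = k) (h6 : 6 < k)
    (hkv : k < Fintype.card F + 1) (hl : 0 < l) (hd : Des B 6 l)
    (hnt : ∃ T : Finset (ℙ F (Fin 2 → F)), T.card = k ∧ T ∉ B)
    (hinv : ∀ σ ∈ G, ∀ b ∈ B, b.image σ ∈ B)
    (htr : ∀ b₁ ∈ B, ∀ b₂ ∈ B, ∃ σ ∈ G, b₁.image σ = b₂) : Even l := by
  classical
  by_contra ho
  rw [Nat.not_even_iff_odd] at ho
  obtain ⟨hv, l', hl', hd'⟩ := compl_des hk h6 (by rwa [card_line']) hl hd hnt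
  obtain ⟨l1, l2, l3, l4, l5, h⟩ := hd.idx hk h6 (by omega)
  obtain ⟨m1, m2, m3, m4, m5, h'⟩ := hd'.idx (k := Fintype.card F + 1 - k) (fun b hb => by
    obtain ⟨c, hc, rfl⟩ := mem_image.1 hb
    rw [card_compl, card_line', hk c hc]) (by rw [card_line'] at hv; omega)
    (by rw [card_line']; omega)
  rw [card_line'] at hv h h'
  have hne := h.nonempty hl (by omega)
  have htr' := psl_tr hG hP hk (by omega) ho hd hinv htr
  have hinv' : ∀ σ ∈ PSLsub F, ∀ b ∈ B, b.image σ ∈ B := fun σ hσ => hinv σ (hP hσ)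
  obtain ⟨c, hc⟩ := card_dvd_of_le_PGL _ (psl_le (F := F))
  have st := card_mul_stab _ B hinv' htr'
  have hbl := h.blocks hk h6 (by omega) hne
  have hB := card_pos.2 hne
  set J : Finset (Equiv.Perm (ℙ F (Fin 2 → F))) := univ.image (invPerm (F := F)) with hJ
  have hJ' : ∀ τ ∈ J, τ ∈ PSLsub F ∧ τ ≠ 1 ∧ τ * τ = 1 := fun τ hτ => by
    obtain ⟨p, -, rfl⟩ := mem_image.1 hτ
    exact ⟨invPerm_isPSL p, invPerm_ne_one p, Equiv.ext (invPerm_invol p)⟩
  have ib := inv_bound hinv' htr' hne J hJ'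
  have fm : Even l4 → J.card * ((Fintype.card F - 1) * (Fintype.card F - 1 - 4)) ≤
      2 * k * ∑ τ ∈ J, (B.filter fun b => b.image τ = b).card := fun e4 => by
    rw [mul_sum]
    refine card_nsmul_le_sum J _ _ fun τ hτ => ?_
    obtain ⟨p, -, rfl⟩ := mem_image.1 hτ
    exact fixed_many (invPerm_invol p) hk (hinv' _ (invPerm_isPSL p)) h.d4 hd e4 ho
      (nonfixed_ge (invPerm_induces p) (invPerm_ne_one p))
  have j2 : Fintype.card F * (Fintype.card F - 1) ≤ 2 * J.card := by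
    have := card_le_mul_card_image (f := invPerm (F := F)) univ 2 fun σ hσ => by
      obtain ⟨p, -, rfl⟩ := mem_image.mp hσ
      exact le_trans (card_le_card (t := {p, (-p.1, -p.2)}) fun p' hp' => by
        simpa using invPerm_fiber p p' (mem_filter.mp hp').2.symm) card_le_two
    rwa [card_univ, Fintype.card_prod, Fintype.card_units] at this
  have j1 : ringChar F = 2 → J.card = Fintype.card F * (Fintype.card F - 1) := fun e => by
    have : CharP F 2 := e ▸ ringChar.charP F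
    rw [hJ, card_image_of_injective _ fun p p' e => ?_, card_univ, Fintype.card_prod,
      Fintype.card_units]
    rcases invPerm_fiber p p' e with c | c
    · exact c.symm
    · rw [c]
      exact Prod.ext (CharTwo.neg_eq _).symm (Units.ext (CharTwo.neg_eq _).symm)
  have p2 := two_mul_psl (F := F)
  have ev := FiniteField.even_card_iff_char_two (F := F)
  have e8 : ringChar F = 2 → 8 ∣ Fintype.card F := fun e => by
    have : CharP F 2 := e ▸ ringChar.charP F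
    obtain ⟨n, -, hn⟩ := FiniteField.card F 2
    rw [hn] at hv ⊢
    refine pow_dvd_pow 2 (show 3 ≤ (n : ℕ) from ?_)
    by_contra e
    have := Nat.pow_le_pow_right two_pos (show (n : ℕ) ≤ 2 by omega)
    omega
  have of := one_fixed (F := F)
  obtain ⟨b0, hb0⟩ := hne
  obtain ⟨x, rfl⟩ : ∃ x, k = x + 5 := ⟨k - 5, by omega⟩
  obtain ⟨y, hy⟩ : ∃ y, Fintype.card F = y + 4 := ⟨Fintype.card F - 4, by omega⟩
  obtain ⟨z, hz⟩ : ∃ z, y + 4 + 1 - (x + 5) = z + 5 := ⟨y - x - 5, by omega⟩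
  rw [hy] at hc hbl j2 j1 p2 ev e8 of hkv hv h h' fm
  rw [hz] at h'
  set s := Nat.card (MulAction.stabilizer (PSLsub F) b0) * c with hs
  have hsB : s * B.card = (y + 5) * (y + 4) * (y + 3) := by
    rw [show (y + 5) * (y + 4) * (y + 3) = _ from hc, ← st b0 hb0, hs]
    ring
  have hst : ∀ b ∈ B, Nat.card (MulAction.stabilizer (PSLsub F) b) * c = s := fun b hb => by
    rw [Nat.eq_of_mul_eq_mul_left hB ((st b hb).trans (st b0 hb0).symm)]
  obtain ⟨i1, i2, i3⟩ := idx_eq h hsB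
  obtain ⟨i4, -, -⟩ := idx_eq h' (s := s) (by rwa [card_image_of_injective _ compl_injective])
  have hz2 : z ≠ 2 := by
    rintro rfl
    exact ar_seven (q := y + 4) (by omega) i4
  have hx2 : x ≠ 2 := by
    rintro rfl
    exact ar_seven (q := y + 4) (by omega) i1
  have s0 : 0 < s := Nat.pos_of_mul_pos_right (lt_of_lt_of_eq (by positivity) hsB.symm)
  have s8 : s < 8 := by
    have a1 : s * y ≤ 6 * (y + 3) := by
      refine Nat.le_of_mul_le_mul_left (c := (y + 5) * (y + 4)) ?_ (by positivity)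
      calc _ = s * ((y + 5) * (y + 4) * y) := by ring
        _ ≤ s * (6 * B.card) := Nat.mul_le_mul_left _ hbl
        _ = 6 * (s * B.card) := by ring
        _ = _ := by rw [hsB]; ring
    by_contra e
    have := Nat.mul_le_mul_right y (not_lt.1 e)
    omega
  have hH : 0 < Nat.card (PSLsub F) := Nat.card_pos
  have c0 : 0 < c := Nat.pos_of_mul_pos_left s0
  have fin : (y + 4) * (y + 3) * Nat.card (PSLsub F) ≤ J.card * ((y + 5) * (y + 4) * (y + 3)) →
      Even l4 → (∀ b ∈ B, ∀ σ ∈ J, ∀ τ ∈ J, b.image σ = b → b.image τ = b → σ * τ = τ * σ →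
        σ = τ) → False := fun a1 a2 a3 => by
    have a4 : J.card * ((y + 3) * (y - 1)) ≤ _ := fm a2
    have a5 := ib a3
    have a6 : (y + 3) * (y - 1) ≤ (y + 5) * (x + 5) := by
      refine Nat.le_of_mul_le_mul_left (c := (y + 4) * (y + 3) * Nat.card (PSLsub F)) ?_
        (by positivity)
      calc _ ≤ J.card * ((y + 5) * (y + 4) * (y + 3)) * ((y + 3) * (y - 1)) :=
            Nat.mul_le_mul_right _ a1
        _ = (y + 5) * (y + 4) * (y + 3) * (J.card * ((y + 3) * (y - 1))) := by ring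
        _ ≤ (y + 5) * (y + 4) * (y + 3) * ((x + 5) * Nat.card (PSLsub F)) := by
            refine Nat.mul_le_mul_left _ (a4.trans ?_)
            rw [mul_comm 2, mul_assoc]
            exact Nat.mul_le_mul_left _ a5
        _ = _ := by ring
    obtain ⟨w, rfl⟩ : ∃ w, y = w + 8 := ⟨y - 8, by omega⟩
    have a7 := a6.trans (Nat.mul_le_mul_left _ (show x + 5 ≤ w + 5 by omega))
    rw [show w + 8 - 1 = w + 7 from rfl] at a7
    nlinarith
  by_cases e : ringChar F = 2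
  · obtain ⟨t, ht⟩ := e8 e
    obtain ⟨t, rfl⟩ : ∃ t', y = 8 * t' + 4 := ⟨t - 1, by omega⟩
    obtain ⟨a1, a2⟩ := ar_even ho s0 s8 i1 i3
    refine fin ?_ a2 fun b hb σ hσ τ hτ b1 b2 b3 => ?_
    · rw [j1 e]
      exact Nat.mul_le_mul_left _ ((Nat.le_mul_of_pos_right _ c0).trans hc.ge)
    by_contra b4
    obtain ⟨c1, c2, c3⟩ := hJ' σ hσ
    obtain ⟨c4, c5, c6⟩ := hJ' τ hτ
    have := mod_four c3 c6 b3 b1 b2 (of (ev.1 e) c1 c2 c3) (of (ev.1 e) c4 c5 c6)
      (of (ev.1 e) (mul_mem c1 c4) (fun e => b4 (mul_left_cancel (c3.trans e.symm)))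
        (by rw [mul_assoc, ← mul_assoc τ, ← b3, mul_assoc, c6, mul_one, c3]))
    rw [hk b hb] at this
    omega
  · have a1 := p2 e
    have a2 : y % 2 = 1 := by have := mt ev.2 e; omega
    refine fin ?_ ?_ fun b hb σ hσ τ hτ b1 b2 _ => ?_
    · refine Nat.le_of_mul_le_mul_left (c := 2) ?_ two_pos
      calc _ = (y + 4) * (y + 3) * (2 * Nat.card (PSLsub F)) := by ring
        _ ≤ 2 * J.card * ((y + 5) * (y + 4) * (y + 3)) := Nat.mul_le_mul j2 a1
        _ = _ := by ring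
    · by_contra o4
      have := eight_dvd ((Nat.not_even_iff_odd.1 o4).mul (show Odd (y + 2) from Nat.odd_iff.2 (by omega)))
        (i2 ▸ (show 8 ∣ Nat.factorial 4 by decide).trans ((Nat.factorial_dvd_descFactorial (x + 5) 4).trans
          (Dvd.intro 1 (by simp [Nat.descFactorial]; ring)))) s0
      omega
    by_contra b4
    have c1 := four_le_stab (hJ' σ hσ) (hJ' τ hτ) b1 b2 b4
    have c2 : 2 ≤ c := Nat.le_of_mul_le_mul_left (by rw [← hc, mul_comm]; exact a1) hH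
    have := (Nat.mul_le_mul c1 c2).trans_eq (hst b hb)
    omega

end Pool.Agent.MP_47ed89_co.H99
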