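import Mathlib.FieldTheory.Finite.Basic
import Pool.Agent.MP_47ed89_co.h99.Gen

/-!
Involutions in block stabilisers, and the special projective group.
-/

set_option autoImplicit false

namespace Pool.Agent.MP_47ed89_co.H99

open Finset Pool.Agent.MP_47ed89_co.H58 Projectivization
open scoped LinearAlgebra.Projectivization Pointwise

section
variable {X : Type} [Fintype X] [DecidableEq X] {B : Finset (Finset X)}
  {G : Subgroup (Equiv.Perm X)}

lemma card_le_stab {b : Finset X} (S : Finset (Equiv.Perm X))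
    (h : ∀ σ ∈ S, σ ∈ G ∧ b.image σ = b) : S.card ≤ Nat.card (MulAction.stabilizer G b) := by
  rw [← Nat.card_eq_finsetCard]
  exact Nat.card_le_card_of_injective (fun σ => ⟨⟨σ.1, (h _ σ.2).1⟩, (h _ σ.2).2⟩) fun x y e =>
    Subtype.ext (congrArg (fun z : MulAction.stabilizer G b => z.1.1) e)

omit [Fintype X] in
lemma image_mul' {b : Finset X} {σ τ : Equiv.Perm X} (h1 : b.image σ = b) (h2 : b.image τ = b) :
    b.image (σ * τ) = b := by
  rw [Equiv.Perm.coe_mul, ← image_image, h2, h1]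

/-- The Burnside-type bound when no two involutions fixing a block commute. -/
lemma inv_bound (hinv : ∀ σ ∈ G, ∀ b ∈ B, b.image σ ∈ B)
    (htr : ∀ b₁ ∈ B, ∀ b₂ ∈ B, ∃ σ ∈ G, b₁.image σ = b₂) (hne : B.Nonempty)
    (J : Finset (Equiv.Perm X)) (hJ : ∀ τ ∈ J, τ ∈ G ∧ τ ≠ 1 ∧ τ * τ = 1)
    (hc : ∀ b ∈ B, ∀ σ ∈ J, ∀ τ ∈ J, b.image σ = b → b.image τ = b → σ * τ = τ * σ → σ = τ) :
    2 * ∑ τ ∈ J, (B.filter fun b => b.image τ = b).card ≤ Nat.card G := by
  have h1 : ∑ τ ∈ J, (B.filter fun b => b.image τ = b).card =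
      ∑ b ∈ B, (J.filter fun τ : Equiv.Perm X => b.image τ = b).card := by
    simp only [card_filter]
    rw [sum_comm]
  have h2 : ∀ b ∈ B, B.card * (2 * (J.filter fun τ : Equiv.Perm X => b.image τ = b).card) ≤
      Nat.card G := by
    intro b hb
    rw [← card_mul_stab G B hinv htr b hb]
    refine Nat.mul_le_mul_left _ ?_
    set I := J.filter fun τ : Equiv.Perm X => b.image τ = b
    rcases I.eq_empty_or_nonempty with e | ⟨σ, hσ⟩
    · simp [e]
    obtain ⟨a1, a2⟩ := mem_filter.1 hσ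
    have hd : Disjoint I (I.image (σ * ·)) := disjoint_left.2 fun ρ hρ h => by
      obtain ⟨τ, hτ, rfl⟩ := mem_image.1 h
      obtain ⟨a3, a4⟩ := mem_filter.1 hτ
      obtain ⟨-, a5, a6⟩ := hJ _ (mem_filter.1 hρ).1
      have := hc b hb σ a1 τ a3 a2 a4 (by
        rw [eq_inv_of_mul_eq_one_left a6, mul_inv_rev, ← eq_inv_of_mul_eq_one_left (hJ _ a1).2.2,
          ← eq_inv_of_mul_eq_one_left (hJ _ a3).2.2])
      exact a5 (this ▸ (hJ _ a1).2.2)
    have := card_le_stab (G := G) (b := b) (I ∪ I.image (σ * ·)) fun ρ hρ => by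
      rcases mem_union.1 hρ with h | h
      · exact ⟨(hJ _ (mem_filter.1 h).1).1, (mem_filter.1 h).2⟩
      · obtain ⟨τ, hτ, rfl⟩ := mem_image.1 h
        exact ⟨mul_mem (hJ _ a1).1 (hJ _ (mem_filter.1 hτ).1).1, image_mul' a2 (mem_filter.1 hτ).2⟩
    rwa [card_union_of_disjoint hd, card_image_of_injective _ (mul_right_injective σ),
      ← two_mul] at this
  refine Nat.le_of_mul_le_mul_left ?_ (card_pos.2 hne)
  rw [h1, mul_sum, mul_sum]
  exact sum_le_card_nsmul _ _ _ h2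

/-- Two commuting involutions fixing a block give four elements of its stabiliser. -/
lemma four_le_stab {b : Finset X} {σ τ : Equiv.Perm X} (h1 : σ ∈ G ∧ σ ≠ 1 ∧ σ * σ = 1)
    (h2 : τ ∈ G ∧ τ ≠ 1 ∧ τ * τ = 1) (a1 : b.image σ = b) (a2 : b.image τ = b) (hne : σ ≠ τ) :
    4 ≤ Nat.card (MulAction.stabilizer G b) := by
  have h3 : σ * τ ≠ 1 := fun e => hne (mul_left_cancel (h1.2.2.trans e.symm))
  have := card_le_stab (G := G) (b := b) {1, σ, τ, σ * τ} (by
    simp only [mem_insert, mem_singleton, forall_eq_or_imp, forall_eq]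
    exact ⟨⟨one_mem _, by simp⟩, ⟨h1.1, a1⟩, ⟨h2.1, a2⟩, mul_mem h1.1 h2.1, image_mul' a1 a2⟩)
  rwa [card_insert_of_notMem (by simp [h1.2.1.symm, h2.2.1.symm, h3.symm]),
    card_insert_of_notMem (by simp [hne, h2.2.1]), card_pair (by simp [h1.2.1])] at this

/-- A set invariant under a four-group whose members have at most one fixed point. -/
lemma mod_four {b : Finset X} {σ τ : Equiv.Perm X} (h1 : σ * σ = 1) (h2 : τ * τ = 1)
    (hc : σ * τ = τ * σ) (a1 : b.image σ = b) (a2 : b.image τ = b)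
    (f1 : ∀ x y, σ x = x → σ y = y → x = y) (f2 : ∀ x y, τ x = x → τ y = y → x = y)
    (f3 : ∀ x y, σ (τ x) = x → σ (τ y) = y → x = y) : b.card % 4 ≤ 1 := by
  have s1 : ∀ x, σ (σ x) = x := fun x => congrFun (congrArg DFunLike.coe h1) x
  have s2 : ∀ x, τ (τ x) = x := fun x => congrFun (congrArg DFunLike.coe h2) x
  have s3 : ∀ x, σ (τ x) = τ (σ x) := fun x => congrFun (congrArg DFunLike.coe hc) x
  have b1 := two_mul_orb s1 (S := b) fun x hx => a1 ▸ mem_image_of_mem _ hx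
  have b2 := even_of_invol ((orb σ).filter fun O => O ⊆ b) (fun O => O.image τ)
    (fun O hO => by
      obtain ⟨c1, c2⟩ := mem_filter.1 hO
      obtain ⟨x, hx, rfl⟩ := mem_orb.1 c1
      exact mem_filter.2 ⟨mem_orb.2 ⟨τ x, by rwa [s3, τ.injective.ne_iff], by simp [s3]⟩,
        a2 ▸ image_subset_image c2⟩)
    (fun O _ => image_image_self s2 O) fun O hO e => by
      obtain ⟨x, hx, rfl⟩ := mem_orb.1 (mem_filter.1 hO).1
      have : τ x ∈ ({x, σ x} : Finset X) := e ▸ mem_image_of_mem _ (mem_insert_self _ _)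
      rcases mem_insert.1 this with c | c
      · exact hx (f2 _ _ (by rw [← s3, c]) c)
      · have c' := mem_singleton.1 c
        exact hx (f3 _ _ (by rw [← s3, c', s1]) (by rw [c', s1]))
  have b3 := card_filter_add_card_filter_not (s := b) fun x => σ x = x
  have b4 : (b.filter fun x => σ x = x).card ≤ 1 :=
    card_le_one.2 fun x hx y hy => f1 x y (mem_filter.1 hx).2 (mem_filter.1 hy).2
  obtain ⟨m, hm⟩ := b2
  simp only [ne_eq] at b1
  omega

end

variable {F : Type} [Field F] {A C : Matrix (Fin 2) (Fin 2) F}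
  {σ τ : Equiv.Perm (ℙ F (Fin 2 → F))}

lemma ind_mul (h : Induces A σ) (h' : Induces C τ) : Induces (A * C) (σ * τ) :=
  ⟨by rw [Matrix.det_mul]; exact mul_ne_zero h.1 h'.1, fun v w hv hw e => by
    rw [Equiv.Perm.mul_apply, h'.2 v _ hv (mulVec_ne_zero h'.1 hv) rfl]
    exact h.2 _ _ _ _ (by rw [e, Matrix.mulVec_mulVec])⟩

lemma ind_inv (h : Induces A σ) : Induces A⁻¹ σ⁻¹ := by
  have hu : IsUnit A.det := isUnit_iff_ne_zero.mpr h.1
  refine ⟨(Matrix.isUnit_nonsing_inv_det A hu).ne_zero, fun v w hv hw e => ?_⟩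
  rw [Equiv.Perm.inv_eq_iff_eq]
  exact (h.2 w v hw hv (by
    rw [e, Matrix.mulVec_mulVec, Matrix.mul_nonsing_inv _ hu, Matrix.one_mulVec])).symm

lemma ind_psl (h : Induces A σ) {c : F} (hc : A.det = c ^ 2) : IsPSL σ := by
  have h0 : c ≠ 0 := fun e => h.1 (by simp [hc, e])
  refine ⟨c⁻¹ • A, by simp [hc, h0], fun v w hv hw e => ?_⟩
  rw [h.2 v _ hv (mulVec_ne_zero h.1 hv) rfl, mk_eq_iff, e, Matrix.smul_mulVec]
  simp only [Pi.smul_apply, smul_eq_mul]
  ring

lemma psl_ind (h : IsPSL σ) : ∃ A : Matrix (Fin 2) (Fin 2) F, A.det = 1 ∧ Induces A σ := by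
  obtain ⟨A, h1, h2⟩ := h
  exact ⟨A, h1, h1 ▸ one_ne_zero, h2⟩

lemma exists_ind (h : A.det ≠ 0) : ∃ σ, Induces A σ :=
  ⟨MulAction.toPerm (Matrix.GeneralLinearGroup.mkOfDetNeZero A h), h, fun v w hv hw e => by
    subst e
    rfl⟩

/-- The special projective group. -/
def PSLsub (F : Type) [Field F] : Subgroup (Equiv.Perm (ℙ F (Fin 2 → F))) where
  carrier := {σ | IsPSL σ}
  one_mem' := ⟨1, by simp, fun v w hv hw h => by
    rw [Matrix.one_mulVec] at h
    subst h; rfl⟩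
  mul_mem' h h' := by
    obtain ⟨A, h1, h2⟩ := psl_ind h
    obtain ⟨C, h3, h4⟩ := psl_ind h'
    exact ind_psl (ind_mul h2 h4) (c := 1) (by simp [h1, h3])
  inv_mem' h := by
    obtain ⟨A, h1, h2⟩ := psl_ind h
    exact ind_psl (ind_inv h2) (c := 1) (by simp [h1])

lemma psl_le : PSLsub F ≤ PGLsub F := fun _ h => by
  obtain ⟨A, -, h2⟩ := psl_ind h
  exact ⟨A, h2⟩

/-- An involution of prescribed determinant. -/
lemma exists_invol {δ : F} (h : δ ≠ 0) : ∃ (T : Matrix (Fin 2) (Fin 2) F) (τ : Equiv.Perm _),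
    T.det = δ ∧ Induces T τ ∧ τ ≠ 1 ∧ ∀ x, τ (τ x) = x := by
  have hd : (!![0, -δ; 1, 0] : Matrix (Fin 2) (Fin 2) F).det = δ := by simp [Matrix.det_fin_two_of]
  obtain ⟨τ, hτ⟩ := exists_ind (hd ▸ h)
  refine ⟨_, τ, hd, hτ, fun e => ?_, fun x => ?_⟩
  · have hv : (![1, 0] : Fin 2 → F) ≠ 0 := fun h => by simpa using congrFun h 0
    simpa using (hτ.fix_iff _ hv).1 (by rw [e]; rfl)
  · induction x using Projectivization.ind with | h v hv =>
    exact ((ind_mul hτ hτ).fix_iff v hv).2 (by simp; ring)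

lemma two_mul_psl [Fintype F] (h : ringChar F ≠ 2) : 2 * Nat.card (PSLsub F) ≤
    (Fintype.card F + 1) * Fintype.card F * (Fintype.card F - 1) := by
  have : Finite (ℙ F (Fin 2 → F)) := Nat.finite_of_card_ne_zero (by rw [card_line]; omega)
  obtain ⟨δ, hδ⟩ := FiniteField.exists_nonsquare h
  have h0 : δ ≠ 0 := fun e => hδ (e ▸ IsSquare.zero)
  obtain ⟨σ, hσ⟩ := exists_ind (A := !![δ, 0; 0, 1]) (by simpa [Matrix.det_fin_two_of])
  have h1 : σ ∉ PSLsub F := fun hs => by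
    obtain ⟨A, a1, a2⟩ := psl_ind hs
    have key : ∀ v : Fin 2 → F, v ≠ 0 → A.mulVec v 0 * v 1 = A.mulVec v 1 * (δ * v 0) := by
      intro v hv
      have := (mk_eq_iff _ _ (mulVec_ne_zero a2.1 hv) (mulVec_ne_zero hσ.1 hv)).1
        ((a2.2 v _ hv _ rfl).symm.trans (hσ.2 v _ hv _ rfl))
      simpa [Matrix.mulVec, dotProduct, Fin.sum_univ_two] using this
    have k1 := key ![1, 0] fun h => by simpa using congrFun h 0
    have k2 := key ![0, 1] fun h => by simpa using congrFun h 1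
    have k3 := key ![1, 1] fun h => by simpa using congrFun h 1
    rw [Matrix.det_fin_two] at a1
    simp only [Matrix.mulVec, dotProduct, Fin.sum_univ_two, Matrix.cons_val_zero,
      Matrix.cons_val_one, Matrix.cons_val_fin_one, mul_one, mul_zero, add_zero, zero_add] at k1 k2 k3
    exact hδ ⟨A 0 0, by
      linear_combination (-δ) * a1 - A 0 0 * k3 + (A 0 0 - δ * A 1 0) * k2 + A 0 0 * k1⟩
  obtain ⟨c, hc⟩ := Subgroup.card_dvd_of_le (psl_le (F := F))
  have h2 := Nat.le_of_dvd (Nat.mul_pos (Nat.mul_pos (by omega) Fintype.card_pos)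
    (Nat.sub_pos_of_lt Fintype.one_lt_card)) (card_dvd_of_le_PGL (PGLsub F) le_rfl)
  have h3 : 0 < Nat.card (PGLsub F) := Nat.card_pos
  have h4 : c ≠ 1 := fun e => h1 (by
    rw [Subgroup.eq_of_le_of_card_ge psl_le (by rw [hc, e, mul_one])]
    exact ⟨_, hσ⟩)
  have h5 : c ≠ 0 := fun e => by simp [hc, e] at h3
  refine le_trans ?_ h2
  rw [hc, mul_comm]
  exact Nat.mul_le_mul_left _ (by omega)

end Pool.Agent.MP_47ed89_co.H99
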