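import Mathlib.FieldTheory.Fixed
import Mathlib.Dynamics.PeriodicPts.Lemmas
import Pool.Agent.MP_47ed89_co.h99.Inv

/-!
Semilinear maps of the projective line and automorphisms of finite fields.
-/

set_option autoImplicit false

namespace Pool.Agent.MP_47ed89_co.H99

open Finset Pool.Agent.MP_47ed89_co.H58 Projectivization
open scoped LinearAlgebra.Projectivization

variable {F : Type} [Field F] {φ ψ : RingAut F} {a c : F} {σ τ : Equiv.Perm (ℙ F (Fin 2 → F))}

/-- `σ` is induced by a `φ`-semilinear map whose matrix has determinant `a`. -/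
def Sm (φ : RingAut F) (a : F) (σ : Equiv.Perm (ℙ F (Fin 2 → F))) : Prop :=
  ∃ A : Matrix (Fin 2) (Fin 2) F, A.det = a ∧ a ≠ 0 ∧
    ∀ (v w : Fin 2 → F) (hv : v ≠ 0) (hw : w ≠ 0), w = A.mulVec (fun i => φ (v i)) →
      σ (mk F v hv) = mk F w hw

lemma map_ne {v : Fin 2 → F} (hv : v ≠ 0) : (fun i => φ (v i)) ≠ 0 := fun h =>
  hv (funext fun i => (map_eq_zero φ).1 (congrFun h i))

lemma map_mulVec' (A : Matrix (Fin 2) (Fin 2) F) (v : Fin 2 → F) :
    (fun i => φ (A.mulVec v i)) = (A.map φ).mulVec fun i => φ (v i) := by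
  ext i
  simp [Matrix.mulVec, dotProduct, Fin.sum_univ_two]

lemma det_map (A : Matrix (Fin 2) (Fin 2) F) : (A.map φ).det = φ A.det :=
  (φ.toRingHom.map_det A).symm

lemma Sm.ne (h : Sm φ a σ) : a ≠ 0 := h.choose_spec.2.1

lemma Sm.mul (h : Sm φ a σ) (h' : Sm ψ c τ) : Sm (φ * ψ) (a * φ c) (σ * τ) := by
  obtain ⟨A, rfl, a1, a2⟩ := h
  obtain ⟨C, rfl, a3, a4⟩ := h'
  refine ⟨A * C.map φ, by rw [Matrix.det_mul, det_map], mul_ne_zero a1 ((map_ne_zero φ).2 a3),
    fun v w hv hw e => ?_⟩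
  rw [Equiv.Perm.mul_apply, a4 v _ hv (mulVec_ne_zero a3 (map_ne hv)) rfl]
  exact a2 _ _ _ _ (by rw [e, map_mulVec', Matrix.mulVec_mulVec]; rfl)

lemma Sm.inv (h : Sm φ a σ) : Sm φ⁻¹ (φ⁻¹ a⁻¹) σ⁻¹ := by
  obtain ⟨A, rfl, a1, a2⟩ := h
  refine ⟨A⁻¹.map (φ⁻¹ : RingAut F), by rw [det_map, Matrix.det_nonsing_inv, Ring.inverse_eq_inv'],
    (map_ne_zero _).2 (inv_ne_zero a1), fun v w hv hw e => ?_⟩
  rw [Equiv.Perm.inv_eq_iff_eq]
  refine (a2 w v hw hv ?_).symm
  have : (fun i => φ (w i)) = A⁻¹.mulVec v := by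
    rw [e, ← map_mulVec']
    exact funext fun i => φ.apply_symm_apply _
  rw [this, Matrix.mulVec_mulVec, Matrix.mul_nonsing_inv _ (isUnit_iff_ne_zero.2 a1),
    Matrix.one_mulVec]

lemma Sm.pgl (h : Sm φ a σ) (h1 : φ = 1) : σ ∈ PGLsub F := by
  subst h1
  obtain ⟨A, rfl, a1, a2⟩ := h
  exact ⟨A, a1, a2⟩

lemma Sm.psl (h : Sm φ a σ) (h1 : φ = 1) (h2 : IsSquare a) : σ ∈ PSLsub F := by
  subst h1
  obtain ⟨A, rfl, a1, a2⟩ := h
  obtain ⟨c, hc⟩ := h2
  exact ind_psl ⟨a1, a2⟩ (hc.trans (sq c).symm)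

lemma sm_psl (h : σ ∈ PSLsub F) : Sm 1 1 σ := by
  obtain ⟨A, a1, a2⟩ := h
  exact ⟨A, a1, one_ne_zero, a2⟩

lemma Sm.conj (h : Sm φ a σ) (h' : τ ∈ PSLsub F) : σ * τ * σ⁻¹ ∈ PSLsub F :=
  ((h.mul (sm_psl h')).mul h.inv).psl (by simp) ⟨1, by
    rw [mul_one, map_one, mul_one, show φ (φ⁻¹ a⁻¹) = a⁻¹ from φ.apply_symm_apply _,
      mul_inv_cancel₀ h.ne, mul_one]⟩

/-- The coordinatewise action of a field automorphism. -/
def semi (φ : RingAut F) : (Fin 2 → F) →ₛₗ[(φ : F →+* F)] (Fin 2 → F) where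
  toFun v i := φ (v i)
  map_add' _ _ := funext fun _ => map_add φ _ _
  map_smul' _ _ := funext fun _ => map_mul φ _ _

/-- The permutation of the projective line induced by a field automorphism. -/
def pure : RingAut F →* Equiv.Perm (ℙ F (Fin 2 → F)) :=
  MonoidHom.toHomPerm
    { toFun := fun φ => Projectivization.map (semi φ) fun _ _ e =>
        funext fun i => φ.injective (congrFun e i)
      map_one' := funext fun x => by induction x using Projectivization.ind with | h v hv => rfl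
      map_mul' := fun φ ψ => funext fun x => by
        induction x using Projectivization.ind with | h v hv => rfl }

lemma pure_mk (v : Fin 2 → F) (hv : v ≠ 0) :
    pure φ (mk F v hv) = mk F (fun i => φ (v i)) (map_ne hv) := rfl

lemma sm_pure (φ : RingAut F) : Sm φ 1 (pure φ) :=
  ⟨1, Matrix.det_one, one_ne_zero, fun v w hv hw e => by
    rw [Matrix.one_mulVec] at e
    subst e
    rfl⟩

lemma Sm.div (h : Sm φ a σ) : Sm 1 a (σ * (pure φ)⁻¹) := by
  simpa using h.mul (sm_pure φ).inv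

/-- The point with affine coordinate `x`. -/
def pt (x : F) : ℙ F (Fin 2 → F) := mk F ![x, 1] fun h => one_ne_zero (congrFun h 1)

/-- The point at infinity. -/
def inf : ℙ F (Fin 2 → F) := mk F ![1, 0] fun h => one_ne_zero (congrFun h 0)

lemma pt_inj : Function.Injective (pt (F := F)) := fun x y e => by
  simpa using (mk_eq_iff _ _ _ _).1 e

lemma pt_ne (x : F) : inf ≠ pt x := fun e => by simpa using (mk_eq_iff _ _ _ _).1 e

lemma pure_pt (x : F) : pure φ (pt x) = pt (φ x) :=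
  (pure_mk _ _).trans ((mk_eq_iff _ _ _ _).2 (by simp))

lemma pure_inf : pure φ inf = inf := (pure_mk _ _).trans ((mk_eq_iff _ _ _ _).2 (by simp))

variable [Fintype F]

lemma aut_comm (φ ψ : RingAut F) : φ * ψ = ψ * φ := by
  obtain ⟨g, hg⟩ := IsCyclic.exists_monoid_generator (α := Fˣ)
  have key : ∀ φ : RingAut F, ∃ m : ℕ, ∀ x, x ≠ 0 → φ x = x ^ m := fun φ => by
    obtain ⟨m, hm⟩ := hg (Units.mk0 (φ g) ((map_ne_zero φ).2 g.ne_zero))
    refine ⟨m, fun x hx => ?_⟩
    obtain ⟨j, hj⟩ := hg (Units.mk0 x hx)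
    obtain rfl : (g : F) ^ j = x := by simpa using congrArg Units.val hj
    rw [map_pow, ← pow_mul, mul_comm, pow_mul, show (g : F) ^ m = φ g by
      simpa using congrArg Units.val hm]
  obtain ⟨m, hm⟩ := key φ
  ext x
  by_cases hx : x = 0
  · simp [hx]
  · show φ (ψ x) = ψ (φ x)
    rw [hm x hx, hm _ ((map_ne_zero ψ).2 hx), map_pow]

lemma sq_mul (ha : a ≠ 0) (hc : c ≠ 0) (h : IsSquare a ↔ IsSquare c) (φ : RingAut F) :
    IsSquare (a * φ c⁻¹) := by
  by_cases e : ringChar F = 2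
  · exact FiniteField.isSquare_of_char_two e _
  rw [FiniteField.isSquare_iff e ha, FiniteField.isSquare_iff e hc] at h
  rw [FiniteField.isSquare_iff e (mul_ne_zero ha ((map_ne_zero φ).2 (inv_ne_zero hc))), mul_pow,
    ← map_pow, inv_pow]
  rcases FiniteField.pow_dichotomy e ha with b | b <;>
    rcases FiniteField.pow_dichotomy e hc with b' | b'
  · simp [b, b']
  · simp [b, h.1 b]
  · simp [b', h.2 b']
  · simp [b, b']

variable [DecidableEq F]

lemma artin (φ : RingAut F) :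
    Fintype.card F = (univ.filter fun x => φ x = x).card ^ orderOf φ := by
  classical
  have : Finite (RingAut F) := Finite.of_injective (fun φ : F ≃+* F => (φ : F → F))
    DFunLike.coe_injective
  have : Fintype (Subgroup.zpowers φ) := Fintype.ofFinite _
  rw [← Nat.card_eq_fintype_card, Module.natCard_eq_pow_finrank
    (K := FixedPoints.subfield (Subgroup.zpowers φ) F), FixedPoints.finrank_eq_card,
    ← Nat.card_eq_fintype_card, Nat.card_zpowers]
  congr 1
  refine Nat.subtype_card _ fun x => ?_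
  rw [mem_filter_univ]
  exact ⟨fun h g => smul_eq_self_of_mem_zpowers g.2 h,
    fun h => h ⟨φ, Subgroup.mem_zpowers φ⟩⟩

omit [Fintype F] [DecidableEq F] in
lemma iter (φ : RingAut F) (n : ℕ) (x : F) : φ^[n] x = (φ ^ n) x := by
  induction n with
  | zero => rfl
  | succ n ih => rw [Function.iterate_succ_apply', ih, pow_succ']; rfl

lemma two_le_fix (φ : RingAut F) : 2 ≤ (univ.filter fun x => φ x = x).card :=
  one_lt_card.2 ⟨0, by simp, 1, by simp, zero_ne_one⟩

lemma cyc {p n : ℕ} (j : ℕ) (hp : p.Prime) (h : φ ^ p ^ n = 1) (h1 : φ ^ p ^ j ≠ 1) :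
    ∃ O : Finset F, O.card = p ^ (j + 1) ∧ ∀ y ∈ O, φ y ∈ O ∧ φ y ≠ y := by
  have := Fact.mk hp
  obtain ⟨x, a1, a2⟩ : ∃ x, (φ ^ p ^ (j + 1)) x = x ∧ (φ ^ p ^ j) x ≠ x := by
    by_contra! c
    have b1 := (artin (φ ^ p ^ j)).symm.trans (artin ((φ ^ p ^ j) ^ p))
    rw [show (univ.filter fun x => ((φ ^ p ^ j) ^ p) x = x) = univ.filter fun x => (φ ^ p ^ j) x = x
      from filter_congr fun x _ => ⟨fun e => c x (by rwa [pow_succ, pow_mul]),
        fun e => (iter _ p x).symm.trans (Function.iterate_fixed e p)⟩] at b1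
    have b2 := Nat.pow_right_injective (two_le_fix _) b1
    obtain ⟨i, -, hi⟩ := (Nat.dvd_prime_pow hp).1 (orderOf_dvd_of_pow_eq_one
      (show (φ ^ p ^ j) ^ p ^ n = 1 by rw [← pow_mul, mul_comm, pow_mul, h, one_pow]))
    have b3 : i ≠ 0 := fun e => h1 (orderOf_eq_one_iff.1 (by rw [hi, e, pow_zero]))
    rw [orderOf_pow_of_dvd hp.ne_zero (hi ▸ dvd_pow_self p b3), hi] at b2
    exact (Nat.div_lt_self (pow_pos hp.pos i) hp.one_lt).ne' b2
  have b := Function.minimalPeriod_eq_prime_pow (f := φ) (fun e => a2 ((iter _ _ x).symm.trans e))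
    ((iter _ _ x).trans a1)
  refine ⟨(range (p ^ (j + 1))).image (φ^[·] x), ?_, fun y hy => ?_⟩
  · rw [card_image_of_injOn (by
      rw [coe_range, ← b]; exact Function.iterate_injOn_Iio_minimalPeriod), card_range]
  obtain ⟨i, -, rfl⟩ := mem_image.1 hy
  refine ⟨mem_image.2 ⟨(i + 1) % p ^ (j + 1), mem_range.2 (Nat.mod_lt _ (pow_pos hp.pos _)), ?_⟩,
    fun e => a2 ?_⟩
  · rw [← b, Function.iterate_mod_minimalPeriod_eq, Function.iterate_succ_apply']
  · rw [← iter]
    exact Function.iterate_fixed (φ.injective.iterate i (((Function.iterate_succ_apply φ i x).symm.trans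
      (Function.iterate_succ_apply' φ i x)).trans e)) _

/-- An invariant set of five field elements. -/
lemma five {p n : ℕ} (hp : p.Prime) (h : φ ^ p ^ n = 1) (h1 : φ ≠ 1) (hq : 5 ≤ Fintype.card F)
    (hx : ∀ r ≤ 4, 7 ≤ p → Fintype.card F ≠ r ^ orderOf φ) :
    ∃ T : Finset F, T.card = 5 ∧ ∀ y ∈ T, φ y ∈ T := by
  have key : ∀ j, φ ^ p ^ j ≠ 1 → p ^ (j + 1) ≤ 5 →
      5 - p ^ (j + 1) ≤ (univ.filter fun x => φ x = x).card →
      ∃ T : Finset F, T.card = 5 ∧ ∀ y ∈ T, φ y ∈ T := fun j a1 a2 a3 => by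
    obtain ⟨O, b1, b2⟩ := cyc j hp h a1
    obtain ⟨S, b3, b4⟩ := exists_subset_card_eq a3
    refine ⟨S ∪ O, ?_, fun y hy => ?_⟩
    · rw [card_union_of_disjoint (disjoint_left.2 fun y c1 c2 =>
        (b2 y c2).2 (mem_filter.1 (b3 c1)).2), b1, b4]
      omega
    · rcases mem_union.1 hy with c | c
      · rwa [(mem_filter.1 (b3 c)).2]
      · exact mem_union_right _ (b2 y c).1
  have a0 := two_le_fix φ
  have a1 := artin φ
  rcases le_or_gt 5 (univ.filter fun x => φ x = x).card with c | c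
  · obtain ⟨S, b3, b4⟩ := exists_subset_card_eq c
    exact ⟨S, b4, fun y hy => by rwa [(mem_filter.1 (b3 hy)).2]⟩
  have a2 : p < 7 := lt_of_not_ge fun e => hx _ (by omega) e a1
  have a3 : φ ^ p ^ 0 ≠ 1 := by simpa
  interval_cases p
  · exact absurd hp (by decide)
  · exact absurd hp (by decide)
  · rcases le_or_gt 3 (univ.filter fun x => φ x = x).card with c' | c'
    · exact key 0 a3 (by norm_num) c'
    refine key 1 (fun e => ?_) (by norm_num) (by omega)
    have := Nat.pow_le_pow_right two_pos (orderOf_le_of_pow_eq_one (by norm_num) e)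
    rw [show (univ.filter fun x => φ x = x).card = 2 by omega] at a1
    omega
  · exact key 0 a3 (by norm_num) a0
  · exact absurd hp (by decide)
  · exact key 0 a3 (by norm_num) (by norm_num)
  · exact absurd hp (by decide)

end Pool.Agent.MP_47ed89_co.H99
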