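import Mathlib.GroupTheory.Perm.Cycle.Type
import Pool.Agent.MP_47ed89_co.h99.PGL
import Pool.Agent.MP_47ed89_co.h99.Semi

/-!
Block-transitive 6-designs of odd index under groups between `PSL(2, q)` and `PΓL(2, q)`.
-/

set_option autoImplicit false

namespace Pool.Agent.MP_47ed89_co.H99

open Finset Pool.Agent.MP_47ed89_co.H58 Projectivization
open scoped LinearAlgebra.Projectivization Pointwise

lemma img_mul {X : Type} [DecidableEq X] (b : Finset X) (σ τ : Equiv.Perm X) :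
    b.image (σ * τ) = (b.image τ).image σ := by rw [Equiv.Perm.coe_mul, image_image]

lemma ar_eight {q o n b : ℕ} (hq : 17 ≤ q) (h1 : o * 8 ≤ n) (h2 : b ≤ o + o)
    (h3 : 2 * n ≤ (q + 1) * q * (q - 1)) (h4 : (q + 1) * (q + 1 - 1) * (q + 1 - 5) ≤ 6 * b) :
    False := by
  rw [Nat.add_sub_cancel] at h4
  have : (q + 1) * q * (8 * (q + 1 - 5)) ≤ (q + 1) * q * (6 * (q - 1)) := by linarith
  have := Nat.le_of_mul_le_mul_left this (by positivity)
  omega

lemma fixed_mod {X : Type} [DecidableEq X] (Ω : Finset (Finset X)) {g : Equiv.Perm X} {p n : ℕ}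
    (hp : p.Prime) (hΩ : ∀ b ∈ Ω, b.image g ∈ Ω) (hg : g ^ p ^ n = 1) (h : ¬ p ∣ Ω.card) :
    ¬ p ∣ (Ω.filter fun b => b.image g = b).card := by
  have := Fact.mk hp
  let f : Function.End Ω := fun b => ⟨b.1.image g, hΩ _ b.2⟩
  have h1 : ∀ m b, ((f ^ m) b).1 = b.1.image ⇑(g ^ m) := fun m b => by
    induction m with
    | zero => exact image_id.symm
    | succ m ih => rw [pow_succ' g, img_mul, ← ih, pow_succ']; rfl
  have h2 := Equiv.Perm.card_fixedPoints_modEq (f := f) (p := p) (n := n)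
    (funext fun b => Subtype.ext (by rw [h1, hg]; exact image_id))
  rw [Fintype.card_coe, Fintype.card_congr (β := Ω.filter fun b => b.image g = b)
    ⟨fun b => ⟨b.1.1, mem_filter.2 ⟨b.1.2, congrArg Subtype.val b.2⟩⟩,
      fun b => ⟨⟨b.1, (mem_filter.1 b.2).1⟩, Subtype.ext (mem_filter.1 b.2).2⟩, fun _ => rfl,
      fun _ => rfl⟩, Fintype.card_coe] at h2
  exact fun e => h ((h2.dvd_iff dvd_rfl).2 e)

lemma inv_filter {X : Type} [DecidableEq X] {B : Finset (Finset X)} {T : Finset X}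
    {g : Equiv.Perm X} (hB : ∀ b ∈ B, b.image g ∈ B) (hT : ∀ x ∈ T, g x ∈ T) :
    ∀ b ∈ B.filter fun b => T ⊆ b, b.image g ∈ B.filter fun b => T ⊆ b := fun b hb =>
  mem_filter.2 ⟨hB b (mem_filter.1 hb).1, (eq_of_subset_of_card_le (image_subset_iff.2 hT)
    (card_image_of_injective _ g.injective).ge).ge.trans (image_subset_image (mem_filter.1 hb).2)⟩

variable {F : Type} [Field F] [Fintype F] [Fintype (ℙ F (Fin 2 → F))]
  [DecidableEq (ℙ F (Fin 2 → F))] {G : Subgroup (Equiv.Perm (ℙ F (Fin 2 → F)))}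
  {B : Finset (Finset (ℙ F (Fin 2 → F)))} {k l : ℕ} {Φ : Subgroup (RingAut F)}

/-- The members of `G` preserving every orbit of the special projective group on blocks. -/
def keep (hS : ∀ σ ∈ G, ∃ φ a, Sm φ a σ) (hinv : ∀ σ ∈ G, ∀ b ∈ B, b.image σ ∈ B) :
    Subgroup (Equiv.Perm (ℙ F (Fin 2 → F))) where
  carrier := {σ | σ ∈ G ∧ ∀ b ∈ B, ∃ η ∈ PSLsub F, b.image σ = b.image η}
  one_mem' := ⟨one_mem _, fun _ _ => ⟨1, one_mem _, rfl⟩⟩
  mul_mem' := fun {σ τ} h h' => ⟨mul_mem h.1 h'.1, fun b hb => by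
    obtain ⟨η, a1, a2⟩ := h.2 b hb
    obtain ⟨θ, a3, a4⟩ := h'.2 b hb
    obtain ⟨φ, a, a5⟩ := hS σ h.1
    exact ⟨σ * θ * σ⁻¹ * η, mul_mem (a5.conj a3) a1, by
      rw [img_mul, img_mul _ _ η, a4, ← a2, ← img_mul, ← img_mul, inv_mul_cancel_right]⟩⟩
  inv_mem' := fun {σ} h => ⟨inv_mem h.1, fun b hb => by
    obtain ⟨η, a1, a2⟩ := h.2 _ (hinv _ (inv_mem h.1) b hb)
    refine ⟨η⁻¹, inv_mem a1, ?_⟩
    rw [← img_mul, mul_inv_cancel, Equiv.Perm.coe_one, image_id] at a2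
    conv_rhs => rw [a2, ← img_mul, inv_mul_cancel, Equiv.Perm.coe_one, image_id]⟩

omit [Fintype (ℙ F (Fin 2 → F))] in
lemma pure_keep (hS : ∀ σ ∈ G, ∃ φ a, Sm φ a σ) (hinv : ∀ σ ∈ G, ∀ b ∈ B, b.image σ ∈ B)
    (htr : ∀ b₁ ∈ B, ∀ b₂ ∈ B, ∃ σ ∈ G, b₁.image σ = b₂) (hd : Des B 6 l)
    (hq : 5 ≤ Fintype.card F) (hc : l.Coprime (Nat.card Φ))
    (hx : ∀ r p a : ℕ, r ≤ 4 → p.Prime → 7 ≤ p → Fintype.card F = r ^ p ^ a → ¬ p ^ a ∣ Nat.card Φ)
    {φ : RingAut F} (h1 : φ ∈ Φ) (h2 : pure φ ∈ G) : pure φ ∈ keep hS hinv := by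
  classical
  have : Finite (RingAut F) := Finite.of_injective (fun φ : F ≃+* F => (φ : F → F))
    DFunLike.coe_injective
  suffices H : ∀ n, n ≠ 0 → ∀ φ ∈ Φ, pure φ ∈ G → φ ^ n = 1 → pure φ ∈ keep hS hinv from
    H _ (orderOf_pos φ).ne' φ h1 h2 (pow_orderOf_eq_one φ)
  intro n
  induction n using Nat.recOnPrimeCoprime with
  | zero => exact fun h => absurd rfl h
  | coprime m n _ _ a1 ih ih' =>
    intro a2 φ a3 a4 a5
    obtain ⟨x, y, e⟩ := a1.isCoprime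
    have b1 := ih (left_ne_zero_of_mul a2) (φ ^ n) (pow_mem a3 n) (map_pow pure φ n ▸ pow_mem a4 n)
      (by rwa [← pow_mul, mul_comm])
    have b2 := ih' (right_ne_zero_of_mul a2) (φ ^ m) (pow_mem a3 m)
      (map_pow pure φ m ▸ pow_mem a4 m) (by rwa [← pow_mul])
    have := mul_mem (zpow_mem b2 x) (zpow_mem b1 y)
    rwa [map_pow, map_pow, ← zpow_natCast, ← zpow_natCast, ← zpow_mul, ← zpow_mul, ← zpow_add,
      mul_comm _ x, mul_comm _ y, e, zpow_one] at this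
  | prime_pow p n hp =>
    intro _ φ a3 a4 a5
    by_cases c : φ = 1
    · rw [c, map_one]
      exact one_mem _
    obtain ⟨i, -, hi⟩ := (Nat.dvd_prime_pow hp).1 (orderOf_dvd_of_pow_eq_one a5)
    have b1 : p ^ i ∣ Nat.card Φ := hi ▸ Φ.orderOf_dvd_natCard a3
    obtain ⟨T, b2, b3⟩ := five hp a5 c hq fun r b2 b3 e => hx r p i b2 hp b3 (hi ▸ e) b1
    have b4 := fixed_mod _ hp (inv_filter (T := insert inf (T.image pt)) (hinv _ a4) fun x hx => by
      rcases mem_insert.1 hx with rfl | hx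
      · rw [pure_inf]
        exact mem_insert_self _ _
      · obtain ⟨y, hy, rfl⟩ := mem_image.1 hx
        rw [pure_pt]
        exact mem_insert_of_mem (mem_image_of_mem _ (b3 y hy))) (n := n)
      (by rw [← map_pow, a5, map_one]) (by
        rw [hd _ (by rw [card_insert_of_notMem (by simp [(pt_ne _).symm]),
          card_image_of_injective _ pt_inj, b2])]
        exact fun e => hp.one_lt.ne' (Nat.eq_one_of_dvd_coprimes hc e ((dvd_pow_self p fun e =>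
          c (orderOf_eq_one_iff.1 (by rw [hi, e, pow_zero]))).trans b1)))
    obtain ⟨b0, b5⟩ := card_pos.1 (Nat.pos_of_ne_zero fun e => b4 (e ▸ dvd_zero p))
    obtain ⟨b6, b7⟩ := mem_filter.1 b5
    refine ⟨a4, fun b hb => ?_⟩
    obtain ⟨ρ, c1, rfl⟩ := htr b0 (mem_filter.1 b6).1 b hb
    obtain ⟨ψ, r, c2⟩ := hS ρ c1
    refine ⟨(ρ * (pure φ * ρ⁻¹ * (pure φ)⁻¹))⁻¹, inv_mem ((c2.mul (((sm_pure φ).mul c2.inv).mul
      (sm_pure φ).inv)).psl (by rw [aut_comm φ]; simp) ?_), ?_⟩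
    · simpa using sq_mul c2.ne c2.ne Iff.rfl (ψ * φ * ψ⁻¹)
    · rw [← img_mul, ← img_mul, show (ρ * (pure φ * ρ⁻¹ * (pure φ)⁻¹))⁻¹ * ρ =
        pure φ * ρ * (pure φ)⁻¹ by group]
      conv_rhs => rw [← b7, ← img_mul, inv_mul_cancel_right]

/-- A dihedral group of order eight fixes a block. -/
lemma eight_le (hP : PSLsub F ≤ G) (hinv : ∀ σ ∈ G, ∀ b ∈ B, b.image σ ∈ B) (hd : Des B 6 l)
    (ho : Odd l) (hq : Fintype.card F % 8 = 1) :
    ∃ b ∈ B, 8 ≤ Nat.card (MulAction.stabilizer (PSLsub F) b) := by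
  classical
  have e : ringChar F ≠ 2 := fun e => by have := FiniteField.even_card_of_char_two e; omega
  obtain ⟨t, ht⟩ : ∃ t, Fintype.card F / 2 = 4 * t := ⟨Fintype.card F / 8, by omega⟩
  obtain ⟨ι, hι⟩ := (FiniteField.isSquare_iff e (neg_ne_zero.2 (one_ne_zero (α := F)))).2
    (by rw [ht, pow_mul]; norm_num)
  have h0 : ι ≠ 0 := fun e => by simp [e] at hι
  have h4 : ι ^ 4 = 1 := by linear_combination (1 - ι * ι) * hι
  have h2 : (2 : F) ≠ 0 := Ring.two_ne_zero e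
  obtain ⟨ζ, hζ⟩ := (FiniteField.isSquare_iff e h0).2 (by rw [ht, pow_mul, h4, one_pow])
  obtain ⟨u, hu⟩ := exists_ind (A := !![ι, 0; 0, 1]) (by simpa [Matrix.det_fin_two_of])
  obtain ⟨w, hw⟩ := exists_ind (F := F) (A := !![0, 1; 1, 0]) (by simp [Matrix.det_fin_two_of])
  have u1 : u ∈ PSLsub F := ind_psl hu (c := ζ) (by simp [Matrix.det_fin_two_of, sq, ← hζ])
  have w1 : w ∈ PSLsub F := ind_psl hw (c := ι) (by simp [Matrix.det_fin_two_of, sq, ← hι])
  have u2 : ∀ x, u (pt x) = pt (ι * x) := fun x => hu.2 _ _ _ _ (by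
    ext i; fin_cases i <;> simp [Matrix.mulVec, dotProduct, Fin.sum_univ_two])
  have u3 : u inf = inf := (hu.fix_iff _ _).2 (by simp)
  have w2 : w inf = pt 0 := hw.2 _ _ _ _ (by
    ext i; fin_cases i <;> simp [Matrix.mulVec, dotProduct, Fin.sum_univ_two])
  have w3 : w (pt 0) = inf := hw.2 _ _ _ _ (by
    ext i; fin_cases i <;> simp [Matrix.mulVec, dotProduct, Fin.sum_univ_two])
  have w4 : ∀ x y, x * y = 1 → w (pt x) = pt y := fun x y h =>
    (hw.2 _ _ _ (mulVec_ne_zero hw.1 fun h => one_ne_zero (congrFun h 1)) rfl).trans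
      ((mk_eq_iff _ _ _ _).2 (by simp [Matrix.mulVec, dotProduct, Fin.sum_univ_two, h]))
  have one : ∀ σ ∈ PSLsub F, σ inf = inf → σ (pt 0) = pt 0 → σ (pt 1) = pt 1 → σ = 1 :=
    fun σ h => by
      obtain ⟨A, hA⟩ := psl_le h
      exact hA.eq_one _ _ _ (pt_ne 0) (pt_ne 1) (pt_inj.ne zero_ne_one)
  have r1 : u ^ 2 ^ 2 = 1 := one (u * u * u * u) (mul_mem (mul_mem (mul_mem u1 u1) u1) u1)
    (by simp [u3]) (by simp [u2]) (by simp [u2, ← hι]) ▸ (by norm_num [pow_succ])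
  have r2 : w ^ 2 ^ 1 = 1 := one _ (pow_mem w1 _) (by simp [pow_succ, w2, w3])
    (by simp [pow_succ, w2, w3]) (by simp [pow_succ, w4 1 1])
  have r3 : u * w * u * w = 1 := one _ (mul_mem (mul_mem (mul_mem u1 w1) u1) w1)
    (by simp [u2, u3, w2, w3]) (by simp [u2, u3, w2, w3]) (by
      simp only [Equiv.Perm.mul_apply, w4 1 1 (mul_one 1), u2, w4 (ι * 1) (-ι)
        (by linear_combination hι)]
      exact congrArg pt (by linear_combination hι))
  have r4 : u * w * u = w := mul_right_cancel (r3.trans (r2.symm.trans (pow_two w)))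
  have n1 : (1 : F) ≠ -1 := fun e => h2 (by linear_combination e)
  have n2 : ι ≠ 1 := fun e => n1 (by rw [hι, e, mul_one])
  have n3 : ι ≠ -1 := fun e => n1 (by rw [hι, e]; ring)
  have n4 : ι ≠ -ι := fun e => h0 ((mul_eq_zero.1 (by linear_combination e)).resolve_left h2)
  set T := insert inf (({0, 1, -1, ι, -ι} : Finset F).image pt) with hT
  have t1 := inv_filter (T := T) (hinv u (hP u1)) (by simp [hT, u2, u3, ← hι])
  have t2 := inv_filter (T := T) (hinv w (hP w1)) (by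
    simp [hT, w2, w3, w4 1 1, w4 (-1) (-1), w4 ι (-ι) (by linear_combination hι),
      w4 (-ι) ι (by linear_combination hι)])
  have t3 := fixed_mod _ Nat.prime_two (fun b hb => mem_filter.2 ⟨t2 b (mem_filter.1 hb).1, by
      conv_lhs => rw [← (mem_filter.1 hb).2, ← img_mul, ← img_mul, r4]⟩) r2
    (fixed_mod _ Nat.prime_two t1 r1 (by
      rw [hd T (by
        rw [card_insert_of_notMem (by simp [pt_ne]), card_image_of_injective _ pt_inj,
          card_insert_of_notMem (by simp [h0, h0.symm]), card_insert_of_notMem (by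
            simp [n1, n2.symm, Ne.symm (neg_eq_iff_eq_neg.not.2 n3)]),
          card_insert_of_notMem (by simp [n2.symm, n3.symm]), card_pair n4])]
      exact ho.not_two_dvd_nat))
  obtain ⟨b, hb⟩ := card_pos.1 (Nat.pos_of_ne_zero fun e => t3 (e ▸ dvd_zero 2))
  simp only [mem_filter] at hb
  have o4 : orderOf u = 2 ^ 2 := orderOf_eq_prime_pow (fun e => n1 (pt_inj (by
    rw [hι, ← mul_one (ι * ι), mul_assoc, ← u2, ← u2, ← Equiv.Perm.mul_apply, ← pow_two,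
      show u ^ 2 = 1 from e]
    rfl))) r1
  have up : ∀ i : ℕ, b.image ⇑(u ^ i) = b ∧ (u ^ i) inf = inf := fun i => by
    induction i with
    | zero => exact ⟨image_id, rfl⟩
    | succ i ih => rw [pow_succ]; exact ⟨image_mul' ih.1 hb.1.2, by simp [u3, ih.2]⟩
  have := card_le_stab (G := PSLsub F) (b := b) ((range 4).image (u ^ ·) ∪
    ((range 4).image (u ^ ·)).image (w * ·)) fun σ hσ => by
      simp only [mem_union, mem_image] at hσ
      rcases hσ with ⟨i, -, rfl⟩ | ⟨_, ⟨i, -, rfl⟩, rfl⟩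
      exacts [⟨pow_mem u1 i, (up i).1⟩, ⟨mul_mem w1 (pow_mem u1 i), image_mul' hb.2 (up i).1⟩]
  rw [card_union_of_disjoint (disjoint_left.2 fun σ h h' => by
    simp only [mem_image] at h h'
    obtain ⟨i, -, rfl⟩ := h
    obtain ⟨_, ⟨j, -, rfl⟩, e⟩ := h'
    exact pt_ne (0 : F) (by rw [← (up i).2, ← e, Equiv.Perm.mul_apply, (up j).2, w2])),
    card_image_of_injective _ (mul_right_injective w), card_image_of_injOn (by
      rw [coe_range, show 4 = orderOf u from o4.symm]; exact pow_injOn_Iio_orderOf)] at this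
  exact ⟨b, hb.1.1.1, this⟩

theorem pgammal (hS : ∀ σ ∈ G, ∃ φ ∈ Φ, ∃ a, Sm φ a σ) (hP : PSLsub F ≤ G)
    (hc : l.Coprime (Nat.card Φ))
    (hx : ∀ r p a : ℕ, r ≤ 4 → p.Prime → 7 ≤ p → Fintype.card F = r ^ p ^ a → ¬ p ^ a ∣ Nat.card Φ)
    (hk : ∀ b ∈ B, b.card = k) (h6 : 6 < k) (hkv : k < Fintype.card F + 1) (hl : 0 < l)
    (hd : Des B 6 l) (hnt : ∃ T : Finset (ℙ F (Fin 2 → F)), T.card = k ∧ T ∉ B)
    (hinv : ∀ σ ∈ G, ∀ b ∈ B, b.image σ ∈ B)
    (htr : ∀ b₁ ∈ B, ∀ b₂ ∈ B, ∃ σ ∈ G, b₁.image σ = b₂) : Even l := by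
  classical
  have hS' : ∀ σ ∈ G, ∃ φ a, Sm φ a σ := fun σ h => (hS σ h).imp fun _ h => h.2
  have pk := fun φ => pure_keep hS' hinv htr hd (by omega) hc hx (φ := φ)
  have sq : ∀ σ ∈ G, ∀ φ ∈ Φ, ∀ a, Sm φ a σ → IsSquare a →
      pure φ ∈ keep hS' hinv ∧ σ ∈ keep hS' hinv := fun σ h φ h1 a h2 h3 => by
    have a1 := h2.div.psl rfl h3
    have a2 := pk φ h1 (by simpa using mul_mem (inv_mem (hP a1)) h)
    exact ⟨a2, by simpa using mul_mem (show _ ∈ keep hS' hinv from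
      ⟨hP a1, fun b _ => ⟨_, a1, rfl⟩⟩) a2⟩
  by_cases c : Fintype.card F % 8 = 1
  · by_contra ho
    obtain ⟨b0, a1, a2⟩ := eight_le hP hinv hd (Nat.not_even_iff_odd.1 ho) c
    set O := B.filter fun b => ∃ η ∈ PSLsub F, b0.image η = b with hO
    have a3 := card_mul_stab (PSLsub F) O (fun σ hσ b hb => by
      obtain ⟨b1, η, b2, rfl⟩ := mem_filter.1 hb
      exact mem_filter.2 ⟨hinv σ (hP hσ) _ b1, σ * η, mul_mem hσ b2, img_mul _ _ _⟩)
      (fun b₁ h₁ b₂ h₂ => by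
        obtain ⟨-, η, b1, rfl⟩ := mem_filter.1 h₁
        obtain ⟨-, θ, b2, rfl⟩ := mem_filter.1 h₂
        exact ⟨θ * η⁻¹, mul_mem b2 (inv_mem b1), by rw [← img_mul, inv_mul_cancel_right]⟩)
      b0 (mem_filter.2 ⟨a1, 1, one_mem _, image_id⟩)
    have a4 : ∀ σ ∈ keep hS' hinv, b0.image σ ∈ O := fun σ h => by
      obtain ⟨η, b1, b2⟩ := h.2 b0 a1
      exact mem_filter.2 ⟨hinv σ h.1 _ a1, η, b1, b2.symm⟩
    obtain ⟨τ, a5⟩ : ∃ τ : Equiv.Perm _, ∀ σ ∈ G, σ ∈ keep hS' hinv ∨ τ⁻¹ * σ ∈ keep hS' hinv := by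
      by_cases e : ∃ τ ∈ G, τ ∉ keep hS' hinv
      · obtain ⟨τ, b1, b2⟩ := e
        refine ⟨τ, fun σ h => or_iff_not_imp_left.2 fun b3 => ?_⟩
        obtain ⟨φ, b4, a, b5⟩ := hS σ h
        obtain ⟨ψ, b6, a', b7⟩ := hS τ b1
        refine (sq _ (mul_mem (inv_mem b1) h) _ (mul_mem (inv_mem b6) b4) _ (b7.inv.mul b5) ?_).2
        rw [← map_mul, mul_comm]
        exact (sq_mul b5.ne b7.ne (iff_of_false (fun e => b3 (sq σ h φ b4 a b5 e).2)
          fun e => b2 (sq τ b1 ψ b6 a' b7 e).2) 1).map _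
      · exact ⟨1, fun σ h => Or.inl (by_contra fun b1 => e ⟨σ, h, b1⟩)⟩
    have a6 : B ⊆ O ∪ O.image (image τ) := fun b hb => by
      obtain ⟨σ, b1, rfl⟩ := htr b0 a1 b hb
      exact mem_union.2 ((a5 σ b1).imp (a4 σ) fun h => mem_image.2 ⟨_, a4 _ h, by
        rw [← img_mul, mul_inv_cancel_left]⟩)
    have a7 := (card_le_card a6).trans ((card_union_le _ _).trans (add_le_add le_rfl card_image_le))
    have a8 := two_mul_psl (F := F) fun e => by
      have := FiniteField.even_card_of_char_two e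
      omega
    obtain ⟨hv, -⟩ := compl_des hk h6 (by rwa [card_line']) hl hd hnt
    obtain ⟨l1, l2, l3, l4, l5, h⟩ := hd.idx hk h6 (by omega)
    have a9 := h.blocks hk h6 (by omega) ⟨b0, a1⟩
    rw [card_line'] at hv a9
    exact ar_eight (by omega) ((Nat.mul_le_mul_left _ a2).trans_eq a3) a7 a8 a9
  refine pgl (G := G ⊓ PGLsub F) inf_le_right (le_inf hP psl_le) hk h6 hkv hl hd hnt
    (fun σ h => hinv σ h.1) fun b₁ h₁ b₂ h₂ => ?_
  obtain ⟨σ, a1, rfl⟩ := htr b₁ h₁ b₂ h₂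
  obtain ⟨φ, a2, a, a3⟩ := hS σ a1
  have a4 : pure φ ∈ keep hS' hinv := by
    by_cases e : ringChar F = 2
    · exact (sq σ a1 φ a2 a a3 (FiniteField.isSquare_of_char_two e a)).1
    have b1 := (sq _ (mul_mem a1 a1) _ (mul_mem a2 a2) _ (a3.mul a3) (by
      simpa using sq_mul a3.ne (inv_ne_zero a3.ne) (by simp) φ)).1
    rcases Nat.even_or_odd' (orderOf φ) with ⟨m, b2 | b2⟩
    · have b3 := artin φ
      have b4 := FiniteField.odd_card_of_char_ne_two e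
      rw [b2, mul_comm, pow_mul] at b3
      generalize (univ.filter fun x => φ x = x).card ^ m = z at b3
      obtain ⟨j, rfl | rfl⟩ := Nat.even_or_odd' z
      · rw [show (2 * j) ^ 2 = 2 * (2 * j ^ 2) by ring] at b3
        omega
      · obtain ⟨i, hi⟩ := Nat.even_mul_succ_self j
        rw [show (2 * j + 1) ^ 2 = 4 * (j * (j + 1)) + 1 by ring] at b3
        omega
    · have := pow_mem b1 (m + 1)
      rwa [← map_pow, ← pow_two, ← pow_mul, mul_add, mul_one, ← add_assoc _ 1 1, ← b2, pow_succ,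
        pow_orderOf_eq_one, one_mul] at this
  obtain ⟨η, a5, a6⟩ := a4.2 b₁ h₁
  exact ⟨σ * (pure φ)⁻¹ * η, ⟨G.mul_mem (G.mul_mem a1 (G.inv_mem a4.1)) (hP a5),
    mul_mem (a3.div.pgl rfl) (psl_le a5)⟩, by
      rw [img_mul, ← a6, ← img_mul, inv_mul_cancel_right]⟩

end Pool.Agent.MP_47ed89_co.H99
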