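import Pool.Agent.MP_47ed89_co.h99.AGL
import Pool.Agent.MP_47ed89_co.h99.Gam

/-!
Transport of the two theorems along a bijection of the point set.
-/

set_option autoImplicit false

namespace Pool.Agent.MP_47ed89_co.H99

open Finset Module Pool.Agent.MP_47ed89_co.H58
open scoped LinearAlgebra.Projectivization

variable {X Y : Type} [DecidableEq X] [DecidableEq Y] {B : Finset (Finset X)} {k t l : ℕ}
  {G : Subgroup (Equiv.Perm X)}

lemma des_image (e : X ≃ Y) (h : Des B t l) : Des (B.image fun b => b.image e) t l := by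
  intro T hT
  rw [← h (T.image e.symm) (by rw [card_image_of_injective _ e.symm.injective, hT]),
    filter_image, card_image_of_injective _ (image_injective e.injective)]
  congr 1
  refine filter_congr fun b _ => ?_
  rw [image_subset_iff]
  refine forall₂_congr fun x _ => ?_
  rw [mem_image]
  exact ⟨fun ⟨y, h1, h2⟩ => by rwa [← h2, e.symm_apply_apply], fun h1 => ⟨_, h1, by simp⟩⟩

lemma transport (e : X ≃ Y) (hk : ∀ b ∈ B, b.card = k) (hnt : ∃ T : Finset X, T.card = k ∧ T ∉ B)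
    (hinv : ∀ σ ∈ G, ∀ b ∈ B, b.image σ ∈ B)
    (htr : ∀ b₁ ∈ B, ∀ b₂ ∈ B, ∃ σ ∈ G, b₁.image σ = b₂) :
    (∀ b ∈ B.image fun b => b.image e, b.card = k) ∧
    (∃ T : Finset Y, T.card = k ∧ T ∉ B.image fun b => b.image e) ∧
    (∀ σ ∈ G, ∀ b ∈ B.image fun b => b.image e,
      b.image (e.permCongr σ) ∈ B.image fun b => b.image e) ∧
    ∀ b₁ ∈ B.image fun b => b.image e, ∀ b₂ ∈ B.image fun b => b.image e,
      ∃ σ ∈ G, b₁.image (e.permCongr σ) = b₂ := by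
  have key : ∀ (σ : Equiv.Perm X) (b : Finset X),
      (b.image e).image (e.permCongr σ) = (b.image σ).image e := fun σ b => by
    rw [image_image, image_image]
    congr 1
    funext x
    simp
  obtain ⟨T, h1, h2⟩ := hnt
  refine ⟨fun c hc => ?_, ⟨T.image e, by rw [card_image_of_injective _ e.injective, h1],
    fun h => h2 ((image_injective e.injective).mem_finset_image.1 h)⟩, fun σ hσ c hc => ?_,
    fun c₁ h₁ c₂ h₂ => ?_⟩
  · obtain ⟨b, hb, rfl⟩ := mem_image.1 hc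
    rw [card_image_of_injective _ e.injective, hk b hb]
  · obtain ⟨b, hb, rfl⟩ := mem_image.1 hc
    exact mem_image.2 ⟨_, hinv σ hσ b hb, (key σ b).symm⟩
  · obtain ⟨b₁, hb₁, rfl⟩ := mem_image.1 h₁
    obtain ⟨b₂, hb₂, rfl⟩ := mem_image.1 h₂
    obtain ⟨σ, hσ, rfl⟩ := htr b₁ hb₁ b₂ hb₂
    exact ⟨σ, hσ, key σ b₁⟩

variable [Fintype X]

theorem proj_even {F : Type} [Field F] [Fintype F] (e : X ≃ ℙ F (Fin 2 → F))
    {Φ : Subgroup (RingAut F)} (hS : ∀ σ ∈ G, ∃ φ ∈ Φ, ∃ a, Sm φ a (e.permCongr σ))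
    (hP : ∀ σ, IsPSL (e.permCongr σ) → σ ∈ G) (hc : l.Coprime (Nat.card Φ))
    (hx : ∀ r p a : ℕ, r ≤ 4 → p.Prime → 7 ≤ p → Fintype.card F = r ^ p ^ a → ¬ p ^ a ∣ Nat.card Φ)
    (hk : ∀ b ∈ B, b.card = k) (h6 : 6 < k) (hkv : k < Fintype.card X) (hl : 0 < l)
    (hd : Des B 6 l) (hnt : ∃ T : Finset X, T.card = k ∧ T ∉ B)
    (hinv : ∀ σ ∈ G, ∀ b ∈ B, b.image σ ∈ B)
    (htr : ∀ b₁ ∈ B, ∀ b₂ ∈ B, ∃ σ ∈ G, b₁.image σ = b₂) : Even l := by
  classical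
  have : Fintype (ℙ F (Fin 2 → F)) := Fintype.ofEquiv X e
  have hv : Fintype.card X = Fintype.card F + 1 := (Fintype.card_congr e).trans card_line'
  obtain ⟨a1, a2, a3, a4⟩ := transport e hk hnt hinv htr
  refine pgammal (G := G.map e.permCongrHom.toMonoidHom) ?_ (fun τ hτ => ?_) hc hx a1 h6 (hv ▸ hkv)
    hl (des_image e hd) a2 ?_ fun c₁ h₁ c₂ h₂ => ?_
  · rintro _ ⟨σ, hσ, rfl⟩
    exact hS σ hσ
  · obtain ⟨σ, rfl⟩ := e.permCongr.surjective τ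
    exact ⟨σ, hP σ hτ, rfl⟩
  · rintro _ ⟨σ, hσ, rfl⟩
    exact a3 σ hσ
  · obtain ⟨σ, hσ, h⟩ := a4 c₁ h₁ c₂ h₂
    exact ⟨_, ⟨σ, hσ, rfl⟩, h⟩

theorem aff_pow {d : ℕ} (e : X ≃ (Fin d → ZMod 2)) (hG : ∀ σ : Equiv.Perm X, σ ∈ G ↔
      ∃ g : (Fin d → ZMod 2) ≃ᵃ[ZMod 2] (Fin d → ZMod 2), ∀ x, e (σ x) = g (e x))
    (hk : ∀ b ∈ B, b.card = k) (h6 : 6 < k) (hkv : k < Fintype.card X) (hl : 0 < l)
    (hd : Des B 6 l) (hnt : ∃ T : Finset X, T.card = k ∧ T ∉ B)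
    (hinv : ∀ σ ∈ G, ∀ b ∈ B, b.image σ ∈ B)
    (htr : ∀ b₁ ∈ B, ∀ b₂ ∈ B, ∃ σ ∈ G, b₁.image σ = b₂) :
    19 ≤ d ∧ 2 ^ ((d - 16) ^ 2 / 8) ∣ l := by
  have h4 : 4 ≤ d := by
    by_contra c
    have a1 := (compl_des hk h6 hkv hl hd hnt).1
    rw [Fintype.card_congr e, Fintype.card_fun, ZMod.card, Fintype.card_fin] at a1
    have := Nat.pow_le_pow_right two_pos (show d ≤ 3 by omega)
    omega
  set s := (d - 15) / 4 + 4 with hs
  let L : (Fin d → ZMod 2) ≃ₗ[ZMod 2] (Fin s → ZMod 2) × (Fin (d - s) → ZMod 2) :=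
    LinearEquiv.ofFinrankEq _ _ (by simp; omega)
  obtain ⟨a1, a2, a3, a4⟩ := transport (e.trans L.toEquiv) hk hnt hinv htr
  have := agl a1 h6 (Fintype.card_congr (e.trans L.toEquiv) ▸ hkv) hl (des_image _ hd) a2
    (fun g b hb => ?_) fun c₁ h₁ c₂ h₂ => ?_
  · simp only [finrank_fin_fun] at this
    have h19 : 19 ≤ d := by omega
    refine ⟨h19, (dvd_of_eq (congrArg _ ?_)).trans this.2⟩
    obtain ⟨m, rfl | rfl | rfl | rfl⟩ : ∃ m, d = 4 * m + 19 ∨ d = 4 * m + 20 ∨ d = 4 * m + 21 ∨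
      d = 4 * m + 22 := ⟨(d - 19) / 4, by omega⟩
    all_goals rw [show s = m + 5 by omega]
    · rw [show 4 * m + 19 - 16 = 4 * m + 3 by omega, show m + 5 - 4 = m + 1 by omega,
        show 4 * m + 19 - (m + 5) - (m + 5) - 8 = 2 * m + 1 by omega,
        show (4 * m + 3) ^ 2 = 8 * ((m + 1) * (2 * m + 1)) + 1 by ring]
      omega
    · rw [show 4 * m + 20 - 16 = 4 * m + 4 by omega, show m + 5 - 4 = m + 1 by omega,
        show 4 * m + 20 - (m + 5) - (m + 5) - 8 = 2 * m + 2 by omega,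
        show (4 * m + 4) ^ 2 = 8 * ((m + 1) * (2 * m + 2)) by ring]
      omega
    · rw [show 4 * m + 21 - 16 = 4 * m + 5 by omega, show m + 5 - 4 = m + 1 by omega,
        show 4 * m + 21 - (m + 5) - (m + 5) - 8 = 2 * m + 3 by omega,
        show (4 * m + 5) ^ 2 = 8 * ((m + 1) * (2 * m + 3)) + 1 by ring]
      omega
    · rw [show 4 * m + 22 - 16 = 4 * m + 6 by omega, show m + 5 - 4 = m + 1 by omega,
        show 4 * m + 22 - (m + 5) - (m + 5) - 8 = 2 * m + 4 by omega,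
        show (4 * m + 6) ^ 2 = 8 * ((m + 1) * (2 * m + 4)) + 4 by ring]
      omega
  · have := a3 ((e.trans L.toEquiv).permCongr.symm g.toEquiv) ((hG _).2
      ⟨(L.toAffineEquiv.trans g).trans L.symm.toAffineEquiv, fun x => by simp⟩) b hb
    rwa [Equiv.apply_symm_apply] at this
  · obtain ⟨σ, hσ, rfl⟩ := a4 c₁ h₁ c₂ h₂
    obtain ⟨g, hg⟩ := (hG σ).1 hσ
    exact ⟨(L.symm.toAffineEquiv.trans g).trans L.toAffineEquiv,
      image_congr fun x _ => by simp [hg]⟩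

end Pool.Agent.MP_47ed89_co.H99
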