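import Pool.Agent.MP_47ed89_co.h99.Gen

/-!
Counting affine configurations inside a block of a 6-design on which the affine group over the
field with two elements is block-transitive.
-/

set_option autoImplicit false

namespace Pool.Agent.MP_47ed89_co.H99

open Finset Pool.Agent.MP_47ed89_co.H58

variable {V : Type} [AddCommGroup V] [Module (ZMod 2) V] [Fintype V] [DecidableEq V]
  {B : Finset (Finset V)} {b : Finset V} {k t l : ℕ}

omit [Fintype V] in
lemma config {ι : Type} (C : Finset ι) (p : ι → Finset V) (hp : ∀ i ∈ C, (p i).card = t)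
    (hd : Des B t l) (hC : ∀ g : V ≃ᵃ[ZMod 2] V, ∃ φ : ι → ι, Function.Injective φ ∧
      ∀ i ∈ C, φ i ∈ C ∧ p (φ i) = (p i).image g)
    (htr : ∀ b₁ ∈ B, ∀ b₂ ∈ B, ∃ g : V ≃ᵃ[ZMod 2] V, b₁.image g = b₂) (hb : b ∈ B) :
    B.card * (C.filter fun i => p i ⊆ b).card = C.card * l := by
  have h1 : ∀ b₁ ∈ B, ∀ b₂ ∈ B,
      (C.filter fun i => p i ⊆ b₁).card ≤ (C.filter fun i => p i ⊆ b₂).card := by
    intro b₁ h₁ b₂ h₂
    obtain ⟨g, rfl⟩ := htr b₁ h₁ b₂ h₂
    obtain ⟨φ, a1, a2⟩ := hC g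
    refine card_le_card_of_injOn φ (fun i hi => ?_) a1.injOn
    obtain ⟨a3, a4⟩ := mem_filter.1 (mem_coe.1 hi)
    exact mem_coe.2 (mem_filter.2 ⟨(a2 i a3).1, (a2 i a3).2 ▸ image_subset_image a4⟩)
  have h2 := sum_card_bipartiteAbove_eq_sum_card_bipartiteBelow (s := C) (t := B)
    fun i b => p i ⊆ b
  simp only [bipartiteAbove, bipartiteBelow] at h2
  rw [sum_congr rfl (g := fun _ => l) fun i hi => hd _ (hp i hi),
    sum_congr rfl (s₁ := B) (g := fun _ => (C.filter fun i => p i ⊆ b).card)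
      fun c hc => le_antisymm (h1 c hc b hb) (h1 b hb c hc), sum_const, sum_const] at h2
  exact h2.symm

omit [Fintype V] [DecidableEq V] in
lemma aff_add (g : V ≃ᵃ[ZMod 2] V) (x a : V) : g (x + a) = g x + g.linear a := by
  rw [add_comm, add_comm (g x)]
  exact g.map_vadd x a

omit [Fintype V] [DecidableEq V] in
lemma add_self_right (x a : V) : x + a + a = x := by rw [add_assoc, self_add, add_zero]

/-- Three pairs with the same difference. -/
lemma six_dvd (hk : ∀ b ∈ B, b.card = k) (h6 : 6 < k) (hkv : k < Fintype.card V) (hl : 0 < l)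
    (hd : Des B 6 l) (htr : ∀ b₁ ∈ B, ∀ b₂ ∈ B, ∃ g : V ≃ᵃ[ZMod 2] V, b₁.image g = b₂) :
    (Fintype.card V - 3) * (Fintype.card V - 5) ∣
      k * (k - 1) * (k - 2) * (k - 3) * (k - 4) * (k - 5) := by
  obtain ⟨l1, l2, l3, l4, l5, h⟩ := hd.idx hk h6 hkv.le
  obtain ⟨b, hb⟩ := h.nonempty hl (by omega)
  have h1 := config ((univ.erase (0 : V)).sigma fun a => triples (Equiv.addRight a) univ)
    (fun i => {i.2.1.1, i.2.1.1 + i.1, i.2.1.2, i.2.1.2 + i.1, i.2.2, i.2.2 + i.1}) ?_ hd ?_ htr hb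
  · rw [card_sigma, sum_congr rfl fun a ha => card_triples (Equiv.addRight a)
      (fun x => add_self_right x a) univ (fun _ _ => mem_univ _)
      fun x _ => by simpa using ne_of_mem_erase ha, sum_const, card_erase_of_mem (mem_univ _),
      card_univ, smul_eq_mul] at h1
    obtain ⟨n, h1⟩ : ∃ n, B.card * n = _ := ⟨_, h1⟩
    refine Dvd.intro_left n (Nat.eq_of_mul_eq_mul_left (card_pos.2 ⟨b, hb⟩) ?_)
    rw [← mul_assoc, h1, h.prod]
    ring
  · rintro ⟨a, ⟨x, y⟩, z⟩ hi
    simp only [triples, mem_sigma, mem_sdiff, mem_insert, mem_singleton, not_or, mem_erase,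
      mem_univ, true_and, and_true] at hi
    obtain ⟨a0, ⟨a1, a2⟩, a3, a4, a5, a6⟩ := hi
    exact card_six (Equiv.addRight a) (fun x => add_self_right x a) x y z (by simpa) (by simpa)
      (by simpa) a1 a2 a3 a4 a5 a6
  · refine fun g => ⟨fun i => ⟨g.linear i.1, ⟨g i.2.1.1, g i.2.1.2⟩, g i.2.2⟩, ?_, ?_⟩
    · rintro ⟨a, ⟨x, y⟩, z⟩ ⟨a', ⟨x', y'⟩, z'⟩ e
      simpa using e
    · rintro ⟨a, ⟨x, y⟩, z⟩ hi
      simpa [triples, ← aff_add] using hi

/-- The additive quadruples of a set. -/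
def quad (b : Finset V) : Finset (V × V × V) :=
  univ.filter fun i => i.2.1 ∈ b ∧ i.2.1 + i.1 ∈ b ∧ i.2.2 ∈ b ∧ i.2.2 + i.1 ∈ b

lemma quad_le (hk : ∀ b ∈ B, b.card = k) (h6 : 6 < k) (hkv : k < Fintype.card V)
    (hd : Des B 6 l) (htr : ∀ b₁ ∈ B, ∀ b₂ ∈ B, ∃ g : V ≃ᵃ[ZMod 2] V, b₁.image g = b₂)
    (hb : b ∈ B) : ∃ n, n * (Fintype.card V - 3) = k * (k - 1) * (k - 2) * (k - 3) ∧
      (quad b).card ≤ n + 3 * k ^ 2 := by
  obtain ⟨l1, l2, l3, l4, l5, h⟩ := hd.idx hk h6 hkv.le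
  set C := (univ.erase (0 : V)).sigma fun a => univ.sigma fun x : V => univ \ {x, x + a} with hC
  have h1 := config C (fun i => {i.2.1, i.2.1 + i.1, i.2.2, i.2.2 + i.1}) ?_ h.d4 ?_ htr hb
  · refine ⟨(C.filter fun i => {i.2.1, i.2.1 + i.1, i.2.2, i.2.2 + i.1} ⊆ b).card,
      Nat.eq_of_mul_eq_mul_left (card_pos.2 ⟨b, hb⟩) ?_, ?_⟩
    · rw [← mul_assoc, h1, hC, card_sigma, sum_congr rfl (g := fun _ => Fintype.card V *
        (Fintype.card V - 2)) fun a ha => by
          rw [card_sigma, sum_congr rfl (g := fun _ => Fintype.card V - 2) fun x _ => by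
            rw [card_univ_sdiff, card_pair (by simpa using ne_of_mem_erase ha)], sum_const,
            card_univ, smul_eq_mul], sum_const, card_erase_of_mem (mem_univ _), card_univ,
        smul_eq_mul]
      have e0 := h.e0
      have e1 := h.e1
      have e2 := h.e2
      have e3 := h.e3
      rw [Nat.sub_zero, Nat.sub_zero] at e0
      generalize Fintype.card V = v at *
      zify at e0 e1 e2 e3 ⊢
      linear_combination (-((k - 1 : ℕ) * (k - 2 : ℕ) * (k - 3 : ℕ)) : ℤ) * e0 -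
        (v * (k - 2 : ℕ) * (k - 3 : ℕ) : ℤ) * e1 - (v * (v - 1 : ℕ) * (k - 3 : ℕ) : ℤ) * e2 -
        (v * (v - 1 : ℕ) * (v - 2 : ℕ) : ℤ) * e3
    have h2 : quad b ⊆ (C.filter fun i => {i.2.1, i.2.1 + i.1, i.2.2, i.2.2 + i.1} ⊆ b).image
        (fun i => (i.1, i.2.1, i.2.2)) ∪ ((b ×ˢ b).image (fun p => (0, p.1, p.2)) ∪
        ((b ×ˢ b).image (fun p => (p.1 + p.2, p.1, p.1)) ∪
        (b ×ˢ b).image fun p => (p.1 + p.2, p.1, p.2))) := by
      rintro ⟨a, x, y⟩ hi
      obtain ⟨-, a1, a2, a3, a4⟩ := mem_filter.1 hi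
      have a5 : x + (x + a) = a := by rw [← add_assoc, self_add, zero_add]
      simp only [mem_union, mem_image]
      by_cases c1 : a = 0
      · exact Or.inr (Or.inl ⟨(x, y), mem_product.2 ⟨a1, a3⟩, by rw [c1]⟩)
      by_cases c2 : y = x
      · exact Or.inr (Or.inr (Or.inl ⟨(x, x + a), mem_product.2 ⟨a1, a2⟩, by rw [c2, a5]⟩))
      by_cases c3 : y = x + a
      · exact Or.inr (Or.inr (Or.inr ⟨(x, x + a), mem_product.2 ⟨a1, a2⟩, by rw [c3, a5]⟩))
      exact Or.inl ⟨⟨a, x, y⟩, by simp_all [insert_subset_iff], rfl⟩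
    have h3 : ∀ f : V × V → V × V × V, ((b ×ˢ b).image f).card ≤ k ^ 2 := fun f =>
      card_image_le.trans (by rw [card_product, hk b hb, sq])
    refine (card_le_card h2).trans ((card_union_le _ _).trans (add_le_add card_image_le
      ((card_union_le _ _).trans ((add_le_add (h3 _) ((card_union_le _ _).trans
        (add_le_add (h3 _) (h3 _)))).trans (by omega)))))
  · rintro ⟨a, x, y⟩ hi
    simp only [hC, mem_sigma, mem_sdiff, mem_insert, mem_singleton, not_or, mem_erase,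
      mem_univ, true_and, and_true] at hi
    obtain ⟨a0, a1, a2⟩ := hi
    have a3 : x ≠ y + a := fun e => a2 (by rw [e, add_self_right])
    rw [card_insert_of_notMem (by simp [a0, Ne.symm a1, a3]),
      card_insert_of_notMem (by simp [Ne.symm a2, Ne.symm a1]), card_pair (by simpa)]
  · refine fun g => ⟨fun i => ⟨g.linear i.1, g i.2.1, g i.2.2⟩, ?_, ?_⟩
    · rintro ⟨a, x, y⟩ ⟨a', x', y'⟩ e
      simpa using e
    · rintro ⟨a, x, y⟩ hi
      simpa [hC, ← aff_add] using hi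

/-- The 6-tuples of sum zero in a set. -/
def hex (b : Finset V) : Finset (Fin 6 → V) := univ.filter fun f => ∑ i, f i = 0 ∧ ∀ i, f i ∈ b

lemma hex_inj (hd : Des B 6 l) (htr : ∀ b₁ ∈ B, ∀ b₂ ∈ B, ∃ g : V ≃ᵃ[ZMod 2] V, b₁.image g = b₂)
    (hb : b ∈ B) : B.card * ((hex b).filter fun f => Function.Injective f).card ≤
      Fintype.card V ^ 5 * l := by
  set C := univ.filter fun f : Fin 6 → V => ∑ i, f i = 0 ∧ Function.Injective f with hC
  have h1 := config C (fun f => univ.image f) (fun f hf => by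
    rw [card_image_of_injective _ (mem_filter.1 hf).2.2, card_fin]) hd (fun g =>
      ⟨fun f => g ∘ f, g.injective.comp_left, fun f hf => ⟨?_, image_image.symm⟩⟩) htr hb
  · refine (Nat.mul_le_mul_left _ (card_le_card fun f hf => ?_)).trans (h1.trans_le ?_)
    · simp only [hex, hC, mem_filter, mem_univ, true_and, image_subset_iff, forall_const] at hf ⊢
      tauto
    · refine Nat.mul_le_mul_right _ ?_
      rw [← Fintype.card_fin 5, ← Fintype.card_fun, ← card_univ]
      refine card_le_card_of_injOn Fin.tail (fun _ _ => mem_coe.2 (mem_univ _)) fun f hf f' hf' e => ?_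
      have a1 := (mem_filter.1 (mem_coe.1 hf)).2.1
      have a2 := (mem_filter.1 (mem_coe.1 hf')).2.1
      rw [Fin.sum_univ_succ] at a1 a2
      rw [← Fin.cons_self_tail f, ← Fin.cons_self_tail f', e, add_right_cancel (a1.trans
        (a2.symm.trans (congrArg (fun h : Fin 5 → V => f' 0 + ∑ i, h i) e.symm)))]
  · obtain ⟨-, a1, a2⟩ := mem_filter.1 hf
    refine mem_filter.2 ⟨mem_univ _, ?_, g.injective.comp a2⟩
    have : ∀ x, g x = g 0 + g.linear x := fun x => by rw [← aff_add, zero_add]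
    show ∑ i, g (f i) = 0
    rw [sum_congr rfl fun i _ => this (f i), sum_add_distrib, ← map_sum g.linear, a1, map_zero g.linear, add_zero,
      sum_const, card_fin, show 6 = 3 + 3 from rfl, add_smul, self_add]

lemma hex_le (b : Finset V) : (hex b).card ≤
    ((hex b).filter fun f => Function.Injective f).card + 15 * (b.card * (quad b).card) := by
  have h1 : ((hex b).filter fun f => f 0 = f 1).card ≤ b.card * (quad b).card := by
    rw [← card_product]
    have key : ∀ f ∈ (hex b).filter fun f => f 0 = f 1, f 1 = f 0 ∧ f 3 = f 2 + (f 2 + f 3) ∧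
        f 5 = f 4 + (f 2 + f 3) := fun f hf => by
      obtain ⟨a1, a2⟩ := mem_filter.1 hf
      have a3 := (mem_filter.1 a1).2.1
      rw [Fin.sum_univ_six, a2, self_add, zero_add] at a3
      refine ⟨a2.symm, by rw [← add_assoc, self_add, zero_add], ?_⟩
      rw [← add_self_right (f 4 + _) (f 5), add_comm (f 4), a3, zero_add]
    refine card_le_card_of_injOn (fun f => (f 0, f 2 + f 3, f 2, f 4)) (fun f hf => ?_)
      fun f hf f' hf' e => ?_
    · obtain ⟨-, a1, a2⟩ := key f hf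
      have a3 := (mem_filter.1 (mem_filter.1 hf).1).2.2
      exact mem_coe.2 (mem_product.2 ⟨a3 0, mem_filter.2 ⟨mem_univ _, a3 2, a1 ▸ a3 3, a3 4,
        a2 ▸ a3 5⟩⟩)
    · obtain ⟨a1, a2, a3⟩ := key f hf
      obtain ⟨a4, a5, a6⟩ := key f' hf'
      simp only [Prod.mk.injEq] at e
      obtain ⟨e1, e2, e3, e4⟩ := e
      funext i
      fin_cases i
      exacts [e1, a1.trans (e1.trans a4.symm), e3, a2.trans ((by rw [e2, e3] : _ = _).trans a5.symm), e4,
        a3.trans ((by rw [e2, e4] : _ = _).trans a6.symm)]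
  have h2 : hex b ⊆ ((hex b).filter fun f => Function.Injective f) ∪
      (univ.filter fun p : Fin 6 × Fin 6 => p.1 < p.2).biUnion
        fun p => (hex b).filter fun f => f p.1 = f p.2 := fun f hf => by
    by_cases c : Function.Injective f
    · exact mem_union_left _ (mem_filter.2 ⟨hf, c⟩)
    obtain ⟨i, j, a1, a2⟩ := Function.not_injective_iff.1 c
    refine mem_union_right _ (mem_biUnion.2 ?_)
    rcases lt_or_gt_of_ne a2 with c | c
    · exact ⟨(i, j), by simpa, mem_filter.2 ⟨hf, a1⟩⟩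
    · exact ⟨(j, i), by simpa, mem_filter.2 ⟨hf, a1.symm⟩⟩
  refine (card_le_card h2).trans ((card_union_le _ _).trans (Nat.add_le_add_left
    ((card_biUnion_le_card_mul _ _ _ fun p hp => le_trans ?_ h1).trans_eq (by congr 1)) _))
  obtain ⟨π, a1, a2⟩ : ∃ π : Equiv.Perm (Fin 6), π 0 = p.1 ∧ π 1 = p.2 :=
    ⟨Equiv.swap 0 p.1 * Equiv.swap 1 (Equiv.swap 0 p.1 p.2), by revert p; decide⟩
  refine card_le_card_of_injOn (· ∘ π) (fun f hf => ?_) π.surjective.injective_comp_right.injOn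
  obtain ⟨a3, a4⟩ := mem_filter.1 (mem_coe.1 hf)
  obtain ⟨-, a5, a6⟩ := mem_filter.1 a3
  exact mem_coe.2 (mem_filter.2 ⟨mem_filter.2 ⟨mem_univ _, (Equiv.sum_comp π f).trans a5,
    fun i => a6 _⟩, by simpa [a1, a2]⟩)

end Pool.Agent.MP_47ed89_co.H99
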