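import Mathlib.Algebra.Order.Chebyshev
import Pool.Agent.MP_47ed89_co.h99.Mom

/-!
The slices of a set with small additive energy have few periods.
-/

set_option autoImplicit false

namespace Pool.Agent.MP_47ed89_co.H99

open Finset Pool.Agent.MP_47ed89_co.H58

lemma cs {α β : Type} [DecidableEq β] (s : Finset α) (t : Finset β) (f : α → β)
    (h : ∀ x ∈ s, f x ∈ t) :
    s.card ^ 2 ≤ t.card * ((s ×ˢ s).filter fun p => f p.1 = f p.2).card := by
  rw [card_eq_sum_card_fiberwise (f := f) (t := t) h, card_eq_sum_card_fiberwise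
    (f := fun p => f p.1) (t := t) fun p hp => h _ (mem_product.1 (mem_filter.1 hp).1).1]
  refine sq_sum_le_card_mul_sum_sq.trans (Nat.mul_le_mul_left _ (sum_le_sum fun y _ => ?_))
  rw [sq, ← card_product]
  refine card_le_card fun p hp => ?_
  simp only [mem_product, mem_filter] at hp ⊢
  exact ⟨⟨⟨hp.1.1, hp.2.1⟩, hp.1.2.trans hp.2.2.symm⟩, hp.1.2⟩

section
variable {V : Type} [AddCommGroup V] [Fintype V]

lemma cross (f g : V → ℝ) : 0 ≤ ∑ u, (∑ y, f y * f (y + u)) * ∑ z, g z * g (z + u) := by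
  refine le_of_le_of_eq (sum_nonneg (s := univ) fun t _ => mul_self_nonneg (∑ y, f y * g (y + t))) ?_
  simp only [sum_mul_sum]
  rw [sum_comm, sum_comm (f := fun u y => ∑ z, f y * f (y + u) * (g z * g (z + u)))]
  refine sum_congr rfl fun y _ => ?_
  rw [sum_congr rfl fun t _ => (Equiv.sum_comp (Equiv.addLeft y) _).symm, sum_comm]
  refine sum_congr rfl fun u _ => ?_
  rw [← Equiv.sum_comp (Equiv.addLeft y) fun z => f y * f (y + u) * (g z * g (z + u))]
  refine sum_congr rfl fun t _ => ?_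
  simp only [Equiv.coe_addLeft, add_right_comm y u t]
  ring

variable [DecidableEq V]

/-- The indicator function. -/
def ind (b : Finset V) (x : V) : ℝ := if x ∈ b then 1 else 0

omit [AddCommGroup V] in
lemma sum_ind (b : Finset V) : ∑ x, ind b x = b.card := by simp [ind]

omit [AddCommGroup V] [Fintype V] in
lemma sum_sq_ind (b H : Finset V) (δ : ℝ) :
    ∑ x ∈ H, (ind b x - δ) ^ 2 = (H ∩ b).card * (1 - 2 * δ) + H.card * δ ^ 2 := by
  rw [sum_congr rfl (g := fun x => ind b x * (1 - 2 * δ) + δ ^ 2) fun x _ => by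
    unfold ind; split_ifs <;> ring, sum_add_distrib, ← sum_mul]
  simp [ind]

lemma centered (b : Finset V) {δ : ℝ} (hδ : δ * Fintype.card V = b.card) :
    ∑ a, (∑ x, (ind b x - δ) * (ind b (x + a) - δ)) ^ 2 = (quad b).card - δ * b.card ^ 3 := by
  have h1 : ∀ a, ∑ x, ind b (x + a) = b.card := fun a =>
    (Equiv.sum_comp (Equiv.addRight a) _).trans (sum_ind b)
  have h2 : ∀ a, ∑ x, (ind b x - δ) * (ind b (x + a) - δ) =
      ∑ x, ind b x * ind b (x + a) - δ * b.card := fun a => by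
    simp only [sub_mul, mul_sub, sum_sub_distrib, ← mul_sum, ← sum_mul, h1, sum_ind, sum_const,
      card_univ, nsmul_eq_mul]
    linear_combination δ * hδ
  have h3 : ∑ a, ∑ x, ind b x * ind b (x + a) = b.card * b.card := by
    rw [sum_comm]
    simp only [← mul_sum]
    rw [sum_congr rfl fun x _ => by rw [show ∑ a, ind b (x + a) = b.card from
      (Equiv.sum_comp (Equiv.addLeft x) _).trans (sum_ind b)], ← sum_mul, sum_ind]
  have h4 : ((quad b).card : ℝ) = ∑ a, (∑ x, ind b x * ind b (x + a)) ^ 2 := by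
    simp only [quad, card_filter, Nat.cast_sum, Fintype.sum_prod_type, sq, sum_mul_sum]
    refine sum_congr rfl fun a _ => sum_congr rfl fun x _ => sum_congr rfl fun y _ => ?_
    by_cases c1 : x ∈ b <;> by_cases c2 : x + a ∈ b <;> by_cases c3 : y ∈ b <;>
      by_cases c4 : y + a ∈ b <;> simp [ind, c1, c2, c3, c4]
  simp only [h2, sub_sq, sum_add_distrib, sum_sub_distrib, ← sum_mul, ← mul_sum, h3, h4, sum_const,
    card_univ, nsmul_eq_mul]
  linear_combination (δ * b.card ^ 2) * hδ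

/-- A set inside an additively closed set has many 6-tuples of sum zero. -/
lemma hex_ge [Module (ZMod 2) V] (b H : Finset V) (hH : ∀ x ∈ H, ∀ y ∈ H, x + y ∈ H) :
    (H ∩ b).card ^ 6 ≤ H.card * (hex b).card := by
  set s := (H ∩ b) ×ˢ (H ∩ b) ×ˢ (H ∩ b) with hs
  have h := cs s H (fun p => p.1 + (p.2.1 + p.2.2)) fun p hp => by
    simp only [hs, mem_product, mem_inter] at hp
    exact hH _ hp.1.1 _ (hH _ hp.2.1.1 _ hp.2.2.1)
  rw [hs, card_product, card_product, ← hs] at h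
  refine le_trans (le_of_eq (by ring)) (h.trans (Nat.mul_le_mul_left _ ?_))
  refine card_le_card_of_injOn (fun p => ![p.1.1, p.1.2.1, p.1.2.2, p.2.1, p.2.2.1, p.2.2.2])
    (fun p hp => ?_) ?_
  · simp only [hs, mem_coe, mem_filter, mem_product, mem_inter] at hp
    refine mem_coe.2 (mem_filter.2 ⟨mem_univ _, ?_, fun i => ?_⟩)
    · rw [← self_add (p.1.1 + (p.1.2.1 + p.1.2.2))]
      nth_rewrite 2 [hp.2]
      simp [Fin.sum_univ_six, add_assoc]
    · fin_cases i <;> simp [hp]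
  · rintro ⟨⟨x1, x2, x3⟩, x4, x5, x6⟩ - ⟨⟨y1, y2, y3⟩, y4, y5, y6⟩ - e
    simpa [and_assoc] using e

end

variable {Q W : Type} [AddCommGroup Q] [Fintype Q] [AddCommGroup W] [Fintype W]

lemma energy (F : Q × W → ℝ) (U : Q → Finset W) (hU : ∀ c, ∀ u ∈ U c, ∀ y, F (c, y + u) = F (c, y)) :
    ∑ c, (U c).card * (∑ y, F (c, y) ^ 2) ^ 2 ≤ ∑ a, (∑ x, F x * F (x + a)) ^ 2 := by
  rw [Fintype.sum_prod_type]
  refine le_trans ?_ (single_le_sum (f := fun c => ∑ u, (∑ x, F x * F (x + (c, u))) ^ 2)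
    (fun c _ => sum_nonneg fun _ _ => sq_nonneg _) (mem_univ 0))
  simp only [Fintype.sum_prod_type, Prod.mk_add_mk, add_zero]
  rw [sum_congr rfl fun u _ => (sq _).trans (sum_mul_sum _ _ _ _), sum_comm]
  refine sum_le_sum fun c _ => ?_
  rw [sum_comm]
  refine le_trans ?_ (single_le_sum (fun c' _ => cross (fun y => F (c, y)) fun y => F (c', y))
    (mem_univ c))
  refine le_trans ?_ (sum_le_sum_of_subset_of_nonneg (subset_univ (U c))
    fun u _ _ => mul_self_nonneg _)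
  rw [sum_congr (s₁ := U c) rfl (g := fun _ => (∑ y, F (c, y) ^ 2) ^ 2) fun u hu => by simp [hU c u hu, sq],
    sum_const, nsmul_eq_mul]

variable [DecidableEq Q] [DecidableEq W]

/-- The periods of a slice. -/
def per (b : Finset (Q × W)) (c : Q) : Finset W :=
  univ.filter fun u => ∀ y, (c, y + u) ∈ b ↔ (c, y) ∈ b

lemma concentrate (b : Finset (Q × W)) (Y : Finset Q) (hY : 32 * Y.card ≤ Fintype.card Q)
    (hU : ∀ c ∉ Y, 256 * Fintype.card Q ≤ (per b c).card) {δ : ℝ} (h0 : 0 < δ) (h2 : 2 * δ ≤ 1)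
    (hδ : δ * Fintype.card (Q × W) = b.card)
    (hE : (quad b).card - δ * b.card ^ 3 ≤ 4 * (b.card * (1 - δ)) ^ 2) :
    7 * b.card ≤ 8 * (Y ×ˢ univ ∩ b).card := by
  have h1 := energy (fun x => ind b x - δ) (per b) fun c u hu y => by
    simp [ind, (mem_filter.1 hu).2 y]
  rw [centered b hδ] at h1
  set e := fun c => ∑ y, (ind b (c, y) - δ) ^ 2 with he
  have h3 : 256 * (∑ c ∈ Yᶜ, e c) ^ 2 ≤ 4 * (b.card * (1 - δ)) ^ 2 := by
    calc _ ≤ 256 * (Yᶜ.card * ∑ c ∈ Yᶜ, e c ^ 2) := by gcongr; exact sq_sum_le_card_mul_sum_sq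
      _ = ∑ c ∈ Yᶜ, (256 * Yᶜ.card : ℕ) * e c ^ 2 := by rw [← mul_sum]; push_cast; ring
      _ ≤ ∑ c ∈ Yᶜ, (per b c).card * e c ^ 2 := sum_le_sum fun c hc => by
        gcongr
        exact (Nat.mul_le_mul_left _ (card_le_univ _)).trans (hU c (mem_compl.1 hc))
      _ ≤ ∑ c, (per b c).card * e c ^ 2 :=
        sum_le_sum_of_subset_of_nonneg (subset_univ _) fun _ _ _ => by positivity
      _ ≤ _ := h1.trans hE
  have h4 : 8 * ∑ c ∈ Yᶜ, e c ≤ b.card * (1 - δ) :=
    (pow_le_pow_iff_left₀ (by positivity) (mul_nonneg (by positivity) (by linarith)) two_ne_zero).1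
      (by linarith)
  have h5 := sum_sq_ind b (Yᶜ ×ˢ univ) δ
  rw [sum_product] at h5
  have h6 : (Y ×ˢ univ ∩ b).card + (Yᶜ ×ˢ univ ∩ b).card = b.card := by
    rw [← card_filter_add_card_filter_not (s := b) (fun x => x.1 ∈ Y)]
    congr 2 <;> ext x <;> simp [and_comm]
  have h7 : 31 * Fintype.card (Q × W) ≤ 32 * (Yᶜ ×ˢ (univ : Finset W)).card := by
    rw [card_product, card_compl, Fintype.card_prod, card_univ, ← mul_assoc, ← mul_assoc]
    exact Nat.mul_le_mul_right _ (by omega)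
  by_contra c
  have c' : (b.card : ℝ) + 1 ≤ 8 * (Yᶜ ×ˢ univ ∩ b).card := by exact_mod_cast (by omega)
  have h8 : (31 : ℝ) * Fintype.card (Q × W) ≤ 32 * (Yᶜ ×ˢ (univ : Finset W)).card := by
    exact_mod_cast h7
  have h9 := mul_le_mul_of_nonneg_right h8 (sq_nonneg δ)
  have h10 := mul_le_mul_of_nonneg_right c' (sub_nonneg.2 h2)
  have h11 : δ * b.card = Fintype.card (Q × W) * δ ^ 2 := by rw [← hδ]; ring
  have h12 : 0 < δ * b.card := h11 ▸ by positivity
  rw [h5] at h4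
  linarith

end Pool.Agent.MP_47ed89_co.H99
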